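import Pool.Agent.H512.IT.Types

set_option autoImplicit false
set_option linter.unusedSectionVars false

/-!
# Abelian CM fields of degree `2 d`, `d` odd: the imaginary quadratic subfield and ordinary types
-/

namespace Pool.Agent.H512.IT

open NumberField TensorProduct Pool.Agent.W289.SL Pool.Agent.W332.SL6

variable {p : ℕ} [hp : Fact p.Prime]

section

variable {F K k : Type} [Field F] [NumberField F] [Field K] [NumberField K] [Algebra F K]
  [Field k] [NumberField k] [Algebra k K]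

lemma finrank_kK (hFK : Module.finrank F K = 2) (hk : Module.finrank ℚ k = 2) :
    Module.finrank k K = Module.finrank ℚ F := by
  have h1 := Module.finrank_mul_finrank ℚ F K
  have h2 := Module.finrank_mul_finrank ℚ k K
  rw [hFK] at h1
  rw [hk] at h2
  omega

/-- the complex conjugation -/
lemma exists_c (hFK : Module.finrank F K = 2) : ∃ c : K ≃ₐ[ℚ] K, (∃ c₀ : K ≃ₐ[F] K, c₀ ≠ 1 ∧
    ∀ x, c x = c₀ x) ∧ c * c = 1 ∧ c ≠ 1 := by
  classical
  have : Algebra.IsQuadraticExtension F K := ⟨hFK⟩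
  have : FiniteDimensional F K := Module.finite_of_finrank_pos (by omega)
  have : IsGalois F K := inferInstance
  have hcard : Nat.card (K ≃ₐ[F] K) = 2 := by rw [IsGalois.card_aut_eq_finrank, hFK]
  obtain ⟨c, hc1, -⟩ := (Nat.card_eq_two_iff' (1 : K ≃ₐ[F] K)).1 hcard
  have hcc : c ^ 2 = 1 := by rw [← hcard]; exact pow_card_eq_one'
  refine ⟨c.restrictScalars ℚ, ⟨c, hc1, fun x => rfl⟩, ?_, ?_⟩
  · ext x
    rw [pow_two] at hcc
    exact congrArg (fun f : K ≃ₐ[F] K => f x) hcc
  · intro h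
    apply hc1
    ext x
    exact congrArg (fun f : K ≃ₐ[ℚ] K => f x) h

variable [IsGalois ℚ K]

lemma pow_of_fix [IsGalois k K] {δ : K ≃ₐ[ℚ] K}
    (h : ∀ x : k, δ (algebraMap k K x) = algebraMap k K x) : δ ^ Module.finrank k K = 1 := by
  classical
  let δ' : K ≃ₐ[k] K := AlgEquiv.ofRingEquiv (f := (δ : K ≃+* K)) h
  have h1 : δ' ^ Module.finrank k K = 1 := by
    rw [← IsGalois.card_aut_eq_finrank]
    exact pow_card_eq_one'
  have h2 : ∀ i y, (δ ^ i) y = (δ' ^ i) y := by
    intro i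
    induction i with
    | zero => intro y; rfl
    | succ i ih =>
      intro y
      rw [pow_succ, pow_succ, AlgEquiv.mul_apply, AlgEquiv.mul_apply, ih]
      rfl
  ext y
  rw [h2, h1]
  rfl

/-- the action on the imaginary quadratic field -/
lemma exists_restr (hk : Module.finrank ℚ k = 2) (δ : K ≃ₐ[ℚ] K) :
    ∃ δk : k ≃ₐ[ℚ] k, ∀ x : k, δ (algebraMap k K x) = algebraMap k K (δk x) := by
  have : Algebra.IsQuadraticExtension ℚ k := ⟨hk⟩
  have : IsGalois ℚ k := inferInstance
  exact ⟨AlgEquiv.restrictNormal δ k, fun x => (AlgEquiv.restrictNormal_commutes δ k x).symm⟩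

lemma card_k (hk : Module.finrank ℚ k = 2) : Nat.card (k ≃ₐ[ℚ] k) = 2 := by
  have : Algebra.IsQuadraticExtension ℚ k := ⟨hk⟩
  have : IsGalois ℚ k := inferInstance
  rw [IsGalois.card_aut_eq_finrank, hk]

/-- an involution of `K` does not fix `k` -/
lemma ne_one_of_invol [IsGalois k K] (hodd : Odd (Module.finrank k K)) {c : K ≃ₐ[ℚ] K}
    (hcc : c * c = 1) (hc : c ≠ 1) {ck : k ≃ₐ[ℚ] k}
    (h : ∀ x : k, c (algebraMap k K x) = algebraMap k K (ck x)) : ck ≠ 1 := by
  rintro rfl
  have h1 := pow_of_fix (k := k) (δ := c) h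
  obtain ⟨m, hm⟩ := hodd
  rw [hm, pow_succ, pow_mul, pow_two, hcc, one_pow, one_mul] at h1
  exact hc h1

/-- isometric automorphisms of `ℂ_p` act trivially on the image of `k` -/
lemma fix_k [IsGalois k K] (hFK : Module.finrank F K = 2) (hk : Module.finrank ℚ k = 2)
    (hodd : Odd (Module.finrank ℚ F)) (hKab : ∀ a b : K ≃ₐ[ℚ] K, a * b = b * a)
    {S : Set (K →+* ℂ_[p])} (hS : IsCMType p F K S) (hord : Ordinary S) {τ : ℂ_[p] ≃+* ℂ_[p]}
    (hτ : Isom τ) (σ : K →+* ℂ_[p]) (x : k) :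
    τ (σ (algebraMap k K x)) = σ (algebraMap k K x) := by
  classical
  have hkK := finrank_kK (k := k) hFK hk
  have hodd' : Odd (Module.finrank k K) := by rw [hkK]; exact hodd
  obtain ⟨c, ⟨c₀, hc₀, hcc₀⟩, hcc, hc1⟩ := exists_c hFK
  have hccx : ∀ y, c (c y) = y := fun y => congrArg (fun f : K ≃ₐ[ℚ] K => f y) hcc
  have hSc := hS c₀ hc₀
  obtain ⟨ck, hck⟩ := exists_restr hk c
  have hck1 := ne_one_of_invol hodd' hcc hc1 hck
  have main : ∀ σ ∈ S, ∀ x : k, τ (σ (algebraMap k K x)) = σ (algebraMap k K x) := by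
    intro σ hσ x
    obtain ⟨δ, hδ⟩ := exists_autQ ((τ : ℂ_[p] →+* ℂ_[p]).comp σ) σ
    have hδ' : ∀ y, τ (σ y) = σ (δ y) := hδ
    obtain ⟨δk, hδk⟩ := exists_restr hk δ
    have h1 : δk = 1 := by
      by_contra hne
      have h2 : δk = ck := by
        obtain ⟨c', -, hu⟩ := (Nat.card_eq_two_iff' (1 : k ≃ₐ[ℚ] k)).1 (card_k hk)
        rw [hu δk hne, hu ck hck1]
      have h3 : ∀ x : k, (δ * c) (algebraMap k K x) = algebraMap k K x := by
        intro x
        rw [AlgEquiv.mul_apply, hck, hδk, h2, ← hck, ← hck, hccx]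
      have h4 := pow_of_fix h3
      have h5 : Commute δ c := hKab _ _
      rw [h5.mul_pow] at h4
      have h6 : c ^ Module.finrank k K = c := by
        obtain ⟨m, hm⟩ := hodd'
        rw [hm, pow_succ, pow_mul, pow_two, hcc, one_pow, one_mul]
      rw [h6] at h4
      have h7 : δ ^ Module.finrank k K = c := by
        rw [mul_eq_one_iff_eq_inv] at h4
        rw [h4, inv_eq_of_mul_eq_one_right hcc]
      have h8 : ∀ i y, ‖σ ((δ ^ i) y)‖ = ‖σ y‖ := by
        intro i
        induction i with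
        | zero => intro y; rfl
        | succ i ih =>
          intro y
          rw [pow_succ, AlgEquiv.mul_apply, ih, ← hδ', hτ]
      have h9 : σ.comp (c₀ : K →+* K) ∈ S := by
        apply hord σ hσ
        intro y
        change ‖σ (c₀ y)‖ = _
        rw [← hcc₀, ← h7, h8]
      exact (hSc σ).1 hσ h9
    rw [hδ', hδk, h1]
    rfl
  by_cases hσ : σ ∈ S
  · exact main σ hσ x
  · have h1 : σ.comp (c₀ : K →+* K) ∈ S := by
      by_contra h
      exact hσ ((hSc σ).2 h)
    have h2 := main _ h1 (ck x)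
    have h3 : (σ.comp (c₀ : K →+* K)) (algebraMap k K (ck x)) = σ (algebraMap k K x) := by
      change σ (c₀ (algebraMap k K (ck x))) = _
      rw [← hcc₀, ← hck, hccx]
    rw [h3] at h2
    exact h2

end

end Pool.Agent.H512.IT
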