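import Pool.Agent.H512.IT.Auto
import Pool.Graph.R_seed8.W332.SL6.Main

set_option autoImplicit false
set_option linter.unusedSectionVars false

/-!
# The semilinear operator and the chain of kernels
-/

namespace Pool.Agent.H512.IT

open NumberField TensorProduct Pool.Agent.W289.SL Pool.Agent.W332.SL6
open Pool.Agent.W254.PA (exists_theta)

variable {p : ℕ} [hp : Fact p.Prime]

section tw

variable {H M : Type} [Field H] [NumberField H] [Field M] [NumberField M]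

/-- `τ ⊗ 1` -/
noncomputable def tw (τ : ℂ_[p] ≃+* ℂ_[p]) : UM p H →+ UM p H :=
  (TensorProduct.map ((τ : ℂ_[p] →+* ℂ_[p]) : ℂ_[p] →+ ℂ_[p]).toIntLinearMap
    (LinearMap.id : Additive (𝓞 H)ˣ →ₗ[ℤ] Additive (𝓞 H)ˣ)).toAddMonoidHom

lemma tw_tmul (τ : ℂ_[p] ≃+* ℂ_[p]) (c : ℂ_[p]) (u : Additive (𝓞 H)ˣ) :
    tw τ (c ⊗ₜ u : UM p H) = τ c ⊗ₜ u := rfl

lemma tw_smul (τ : ℂ_[p] ≃+* ℂ_[p]) (c : ℂ_[p]) (x : UM p H) :
    tw τ (c • x) = τ c • tw τ x := by
  induction x using TensorProduct.induction_on with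
  | zero => simp
  | tmul b u => rw [smul_tmul', tw_tmul, tw_tmul, smul_tmul', smul_eq_mul, smul_eq_mul, map_mul]
  | add x y hx hy => rw [smul_add, map_add, map_add, smul_add, hx, hy]

lemma push_tw (τ : ℂ_[p] ≃+* ℂ_[p]) (f : H →+* M) (x : UM p H) :
    push f (tw τ x) = tw τ (push f x) := by
  induction x using TensorProduct.induction_on with
  | zero => simp
  | tmul b u => rw [push_tmul, tw_tmul, push_tmul, tw_tmul]
  | add x y hx hy => rw [map_add, map_add, map_add, map_add, hx, hy]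

lemma logLin_tw {τ : ℂ_[p] ≃+* ℂ_[p]} (hτ : Isom τ) {L : ℂ_[p] → ℂ_[p]} (hL : IsIwasawaLog p L)
    (s : H →+* ℂ_[p]) (x : UM p H) :
    logLin hL s (tw τ x) = τ (logLin hL ((τ.symm : ℂ_[p] →+* ℂ_[p]).comp s) x) := by
  induction x using TensorProduct.induction_on with
  | zero => simp
  | tmul b u =>
    rw [tw_tmul, logLin_tmul', logLin_tmul', map_mul]
    congr 1
    have h1 := log_tau hτ hL (nearU_unit ((τ.symm : ℂ_[p] →+* ℂ_[p]).comp s) (Additive.toMul u))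
    rw [← h1]
    congr 1
    exact (τ.apply_symm_apply _).symm
  | add x y hx hy => rw [map_add, map_add, map_add, map_add, hx, hy]

end tw

section T

variable {K H : Type} [Field K] [NumberField K] [Field H] [NumberField H] [Algebra K H]
  [FiniteDimensional K H]

/-- `g` extends `γ` -/
def Lifts (γ : K ≃ₐ[ℚ] K) (g : H ≃ₐ[ℚ] H) : Prop := ∀ x, g (algebraMap K H x) = algebraMap K H (γ x)

lemma Lifts.symm {γ : K ≃ₐ[ℚ] K} {g : H ≃ₐ[ℚ] H} (hg : Lifts γ g) (x : K) :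
    g.symm (algebraMap K H x) = algebraMap K H (γ.symm x) := by
  apply g.injective
  rw [g.apply_symm_apply, hg, γ.apply_symm_apply]

lemma Lifts.pow {γ : K ≃ₐ[ℚ] K} {g : H ≃ₐ[ℚ] H} (hg : Lifts γ g) (n : ℕ) :
    Lifts (γ ^ n) (g ^ n) := by
  induction n with
  | zero => intro x; rfl
  | succ n ih =>
    intro x
    rw [pow_succ, pow_succ, AlgEquiv.mul_apply, AlgEquiv.mul_apply, hg, ih]

/-- the conjugate `g⁻¹ h g` -/
lemma exists_conj {γ : K ≃ₐ[ℚ] K} {g : H ≃ₐ[ℚ] H} (hg : Lifts γ g) (h : H ≃ₐ[K] H) :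
    ∃ h' : H ≃ₐ[K] H, ∀ y, g (h' y) = h (g y) := by
  let e : H ≃+* H := ((g : H ≃+* H).trans (h : H ≃+* H)).trans (g.symm : H ≃+* H)
  have he : ∀ y, e y = g.symm (h (g y)) := fun y => rfl
  refine ⟨AlgEquiv.ofRingEquiv (f := e) ?_, ?_⟩
  · intro x
    rw [he, hg, AlgEquiv.commutes, hg.symm, γ.symm_apply_apply]
  · intro y
    change g (e y) = _
    rw [he, g.apply_symm_apply]

/-- the semilinear operator -/
noncomputable def opT (τ : ℂ_[p] ≃+* ℂ_[p]) (g : H ≃ₐ[ℚ] H) : UM p H →+ UM p H :=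
  (tw τ).comp (push (g : H →+* H)).toAddMonoidHom

lemma opT_apply (τ : ℂ_[p] ≃+* ℂ_[p]) (g : H ≃ₐ[ℚ] H) (x : UM p H) :
    opT τ g x = tw τ (push (g : H →+* H) x) := rfl

/-- `χ(h) = τ(χ(g⁻¹ h g))` -/
def Compat (τ : ℂ_[p] ≃+* ℂ_[p]) (g : H ≃ₐ[ℚ] H) (χ : (H ≃ₐ[K] H) →* ℂ_[p]ˣ) : Prop :=
  ∀ h h' : H ≃ₐ[K] H, (∀ y, g (h' y) = h (g y)) →
    ((χ h : ℂ_[p]ˣ) : ℂ_[p]) = τ ((χ h' : ℂ_[p]ˣ) : ℂ_[p])

lemma opT_inChi {τ : ℂ_[p] ≃+* ℂ_[p]} {γ : K ≃ₐ[ℚ] K} {g : H ≃ₐ[ℚ] H} (hg : Lifts γ g)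
    {χ : (H ≃ₐ[K] H) →* ℂ_[p]ˣ} (hc : Compat τ g χ) {x : UM p H} (hx : InChi χ x) :
    InChi χ (opT τ g x) := by
  intro h
  obtain ⟨h', hh'⟩ := exists_conj hg h
  rw [actLin_eq, opT_apply, push_tw, push_push]
  have h1 : ((h : H →+* H).comp (g : H →+* H)) = (g : H →+* H).comp (h' : H →+* H) := by
    ext y
    exact (hh' y).symm
  rw [h1, ← push_push, ← actLin_eq (h' : H →+* H), hx h', map_smul, tw_smul, hc h h' hh']

/-- the embeddings `s₀ ∘ g^i` -/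
noncomputable def emb (s₀ : H →+* ℂ_[p]) (g : H ≃ₐ[ℚ] H) (i : ℕ) : H →+* ℂ_[p] :=
  s₀.comp ((g ^ i : H ≃ₐ[ℚ] H) : H →+* H)

lemma emb_apply (s₀ : H →+* ℂ_[p]) (g : H ≃ₐ[ℚ] H) (i : ℕ) (y : H) :
    emb s₀ g i y = s₀ ((g ^ i) y) := rfl

variable [IsGalois K H]

lemma logLin_opT {τ : ℂ_[p] ≃+* ℂ_[p]} (hτ : Isom τ) {γ : K ≃ₐ[ℚ] K} {g : H ≃ₐ[ℚ] H}
    (hg : Lifts γ g) {χ : (H ≃ₐ[K] H) →* ℂ_[p]ˣ} {L : ℂ_[p] → ℂ_[p]} (hL : IsIwasawaLog p L)
    (s₀ : H →+* ℂ_[p]) (hs : ∀ k : K, τ (s₀ (algebraMap K H k)) = s₀ (algebraMap K H k))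
    {x : UM p H} (hx : InChi χ x) (i : ℕ) :
    logLin hL (emb s₀ g i) (opT τ g x) = 0 ↔ logLin hL (emb s₀ g (i + 1)) x = 0 := by
  rw [opT_apply, logLin_tw hτ, logLin_push]
  have hs' : ∀ k : K, τ.symm (s₀ (algebraMap K H k)) = s₀ (algebraMap K H k) := by
    intro k
    rw [τ.symm_apply_eq, hs]
  obtain ⟨h, hh⟩ := exists_aut (K := K)
    ((((τ.symm : ℂ_[p] ≃+* ℂ_[p]) : ℂ_[p] →+* ℂ_[p]).comp (emb s₀ g i)).comp (g : H →+* H))
    (emb s₀ g (i + 1)) (by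
      ext k
      change τ.symm (s₀ ((g ^ i) (g (algebraMap K H k)))) = s₀ ((g ^ (i + 1)) (algebraMap K H k))
      have h1 : (g ^ i) (g (algebraMap K H k)) = (g ^ (i + 1)) (algebraMap K H k) := by
        rw [pow_succ, AlgEquiv.mul_apply]
      rw [h1, hg.pow (i + 1), hs'])
  rw [hh, logLin_inChi hL hx, map_eq_zero, mul_eq_zero]
  constructor
  · rintro (h1 | h1)
    · exact absurd h1 (Units.ne_zero _)
    · exact h1
  · exact Or.inr

variable (χ : (H ≃ₐ[K] H) →* ℂ_[p]ˣ) {L : ℂ_[p] → ℂ_[p]} (hL : IsIwasawaLog p L)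
  (s₀ : H →+* ℂ_[p]) (g : H ≃ₐ[ℚ] H)

/-- the elements of the `χ`-part killed by the first `j` logarithms -/
noncomputable def kerN (j : ℕ) : Submodule ℂ_[p] (UM p H) where
  carrier := {x | InChi χ x ∧ ∀ i < j, logLin hL (emb s₀ g i) x = 0}
  add_mem' := by
    rintro x y ⟨hx, hx'⟩ ⟨hy, hy'⟩
    exact ⟨hx.add hy, fun i hi => by rw [map_add, hx' i hi, hy' i hi, add_zero]⟩
  zero_mem' := ⟨fun τ => by rw [map_zero, smul_zero], fun i _ => map_zero _⟩
  smul_mem' := by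
    rintro c x ⟨hx, hx'⟩
    exact ⟨hx.smul c, fun i hi => by rw [map_smul, hx' i hi, smul_zero]⟩

lemma mem_kerN {j : ℕ} {x : UM p H} :
    x ∈ kerN χ hL s₀ g j ↔ InChi χ x ∧ ∀ i < j, logLin hL (emb s₀ g i) x = 0 := Iff.rfl

lemma kerN_anti {i j : ℕ} (h : i ≤ j) : kerN χ hL s₀ g j ≤ kerN χ hL s₀ g i :=
  fun _ hx => ⟨hx.1, fun k hk => hx.2 k (lt_of_lt_of_le hk h)⟩

variable {χ s₀ g}

/-- if the chain is stationary at one step then the kernel is the Leopoldt kernel -/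
lemma stat {τ : ℂ_[p] ≃+* ℂ_[p]} (hτ : Isom τ) {γ : K ≃ₐ[ℚ] K} (hg : Lifts γ g)
    (hc : Compat τ g χ)
    (hs : ∀ k : K, τ (s₀ (algebraMap K H k)) = s₀ (algebraMap K H k)) {j : ℕ}
    (hj : kerN χ hL s₀ g j = kerN χ hL s₀ g (j + 1)) {x : UM p H} (hx : x ∈ kerN χ hL s₀ g j)
    (m : ℕ) : logLin hL (emb s₀ g m) x = 0 := by
  induction m generalizing x with
  | zero =>
    rw [hj] at hx
    exact hx.2 0 (by omega)
  | succ m ih =>
    have hx1 := hx
    rw [hj] at hx1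
    have h1 : opT τ g x ∈ kerN χ hL s₀ g j := by
      refine ⟨opT_inChi hg hc hx.1, fun i hi => ?_⟩
      rw [logLin_opT hτ hg hL s₀ hs hx.1]
      exact hx1.2 (i + 1) (by omega)
    exact (logLin_opT hτ hg hL s₀ hs hx.1 m).1 (ih h1)

end T

/-- a chain of subspaces of a space of dimension at most `d` is stationary at some step `≤ d` -/
lemma exists_stat {V : Type} [AddCommGroup V] [Module ℂ_[p] V] [FiniteDimensional ℂ_[p] V]
    (N : ℕ → Submodule ℂ_[p] V) (hN : ∀ i, N (i + 1) ≤ N i) (d : ℕ)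
    (hd : Module.finrank ℂ_[p] (N 0) ≤ d) : ∃ j ≤ d, N j = N (j + 1) := by
  by_contra hcon
  push Not at hcon
  have h : ∀ j ≤ d + 1, Module.finrank ℂ_[p] (N j) + j ≤ d := by
    intro j
    induction j with
    | zero => intro _; simpa using hd
    | succ j ih =>
      intro hj
      have h1 := ih (by omega)
      have h2 : N (j + 1) < N j := lt_of_le_of_ne (hN j) (fun h => hcon j (by omega) h.symm)
      have h3 := Submodule.finrank_lt_finrank_of_lt h2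
      omega
  have := h (d + 1) le_rfl
  omega

section dim

variable {K H : Type} [Field K] [NumberField K] [Field H] [NumberField H] [Algebra K H]
  [FiniteDimensional K H] [IsGalois K H]

instance : Module.Finite ℤ (Additive (𝓞 H)ˣ) := inferInstance

instance finUM : FiniteDimensional ℂ_[p] (UM p H) := inferInstance

/-- the `χ`-part has at most the dimension of the number of the infinite places -/
lemma finrank_kerN_zero (χ : (H ≃ₐ[K] H) →* ℂ_[p]ˣ) {L : ℂ_[p] → ℂ_[p]} (hL : IsIwasawaLog p L)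
    (s₀ : H →+* ℂ_[p]) (g : H ≃ₐ[ℚ] H) :
    Module.finrank ℂ_[p] (kerN χ hL s₀ g 0) ≤ Fintype.card (InfinitePlace K) := by
  classical
  obtain ⟨θ⟩ := exists_theta p
  have hext : ∀ w : InfinitePlace K, ∃ s : H →+* ℂ, s.comp (algebraMap K H) = w.embedding := by
    intro w
    let := w.embedding.toAlgebra
    have : Algebra.IsAlgebraic K H := inferInstance
    let f : H →ₐ[K] ℂ := IsAlgClosed.lift
    exact ⟨f, f.comp_algebraMap⟩
  choose s hs using hext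
  let φ : kerN χ hL s₀ g 0 →ₗ[ℂ_[p]] (InfinitePlace K → ℂ_[p]) :=
    LinearMap.pi fun w => (lam θ (s w)).comp (kerN χ hL s₀ g 0).subtype
  have hφ : Function.Injective φ := by
    rw [← LinearMap.ker_eq_bot, LinearMap.ker_eq_bot']
    rintro ⟨x, hx⟩ h
    have h1 : ∀ w, lam θ (s w) x = 0 := fun w => congrFun h w
    have h2 : x = 0 := by
      apply eq_zero_of_lam θ
      intro t
      apply lam_zero_of_place θ hx.1 t (s (InfinitePlace.mk (t.comp (algebraMap K H))))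
      · rw [hs, InfinitePlace.mk_embedding]
      · exact h1 _
    exact Subtype.ext h2
  have h3 := LinearMap.finrank_le_finrank_of_injective hφ
  rwa [Module.finrank_fintype_fun_eq_card] at h3

end dim

end Pool.Agent.H512.IT
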