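import Pool.Agent.H512.IT.Wild
import Pool.Agent.H512.IT.Chain

set_option autoImplicit false
set_option linter.unusedSectionVars false

/-!
# Existence of the automorphism `τ`
-/

namespace Pool.Agent.H512.IT

open NumberField TensorProduct Pool.Agent.W289.SL Pool.Agent.W332.SL6

variable {p : ℕ} [hp : Fact p.Prime]

/-- roots of unity of `ℂ_p` are algebraic over `ℚ_p` -/
lemma exists_prim {N : ℕ} (hN : 0 < N) {ζ : ℂ_[p]} (hζ : IsPrimitiveRoot ζ N) :
    ∃ z : PadicAlgCl p, IsPrimitiveRoot z N ∧ (z : ℂ_[p]) = ζ := by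
  have hinj : Function.Injective (algebraMap (PadicAlgCl p) ℂ_[p]) := RingHom.injective _
  have : NeZero N := ⟨hN.ne'⟩
  have : NeZero ((N : ℕ) : PadicAlgCl p) := ⟨by exact_mod_cast hN.ne'⟩
  obtain ⟨w, hw⟩ := HasEnoughRootsOfUnity.exists_primitiveRoot (PadicAlgCl p) N
  have hw' : IsPrimitiveRoot (algebraMap (PadicAlgCl p) ℂ_[p] w) N := hw.map_of_injective hinj
  obtain ⟨i, -, hi⟩ := hw'.eq_pow_of_pow_eq_one hζ.pow_eq_one
  refine ⟨w ^ i, ?_, ?_⟩
  · apply IsPrimitiveRoot.of_map_of_injective (f := algebraMap (PadicAlgCl p) ℂ_[p]) _ hinj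
    rw [map_pow, hi]
    exact hζ
  · rw [← hi, ← map_pow]
    rfl

section

variable {K H : Type} [Field K] [NumberField K] [Field H] [NumberField H] [Algebra K H]
  [FiniteDimensional K H]

/-- on the elements of order prime to `p` of `Gal(H / K)` the conjugation with `g` is a power of
`h ↦ h ^ p` -/
def ActsByFrobenius (p : ℕ) (g : H ≃ₐ[ℚ] H) : Prop :=
  ∃ j : ℕ, ∀ h : H ≃ₐ[K] H, (orderOf h).Coprime p → ∀ y, g (h y) = (h ^ p ^ j) (g y)

/-- the conjugate `g h g⁻¹` -/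
lemma exists_conj' {γ : K ≃ₐ[ℚ] K} {g : H ≃ₐ[ℚ] H} (hg : Lifts γ g) (h : H ≃ₐ[K] H) :
    ∃ h' : H ≃ₐ[K] H, ∀ y, g (h y) = h' (g y) := by
  have hg' : Lifts γ.symm g.symm := hg.symm
  obtain ⟨h', hh'⟩ := exists_conj hg' h
  refine ⟨h', fun y => ?_⟩
  have h1 := hh' (g y)
  rw [g.symm_apply_apply] at h1
  rw [← h1, g.apply_symm_apply]

theorem exists_tau {γ : K ≃ₐ[ℚ] K} {g : H ≃ₐ[ℚ] H} (hg : Lifts γ g)
    (χ : (H ≃ₐ[K] H) →* ℂ_[p]ˣ) (hχ : Function.Injective χ)
    (hF : ActsByFrobenius (K := K) p g) :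
    ∃ σ : PadicAlgCl p ≃ₐ[ℚ_[p]] PadicAlgCl p, Compat (ext σ) g χ := by
  classical
  have hfin : Finite (H ≃ₐ[K] H) := inferInstance
  have hcyc : IsCyclic (H ≃ₐ[K] H) :=
    isCyclic_of_injective_ringHom ((Units.coeHom ℂ_[p]).comp χ) (by
      intro a b h
      exact hχ (Units.ext h))
  obtain ⟨h0, hgen⟩ := hcyc.exists_monoid_generator
  obtain ⟨h1, hh1⟩ := exists_conj' hg h0
  obtain ⟨a, ha⟩ := Submonoid.mem_powers_iff _ _ |>.1 (hgen h1)
  have hpow : ∀ i : ℕ, ∀ y, g ((h0 ^ i) y) = (h0 ^ (a * i)) (g y) := by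
    intro i
    induction i with
    | zero => intro y; simp
    | succ i ih =>
      intro y
      rw [pow_succ, AlgEquiv.mul_apply, ih, hh1, ← ha, ← AlgEquiv.mul_apply, ← pow_add]
      rfl
  set N := orderOf h0 with hN
  have hNpos : 0 < N := orderOf_pos h0
  -- `a` is prime to `N`
  have hcop : a.Coprime N := by
    rw [Nat.coprime_iff_gcd_eq_one]
    by_contra hne
    set e := Nat.gcd a N with he
    have hepos : 0 < e := Nat.gcd_pos_of_pos_right _ hNpos
    have hlt : N / e < N := Nat.div_lt_self hNpos (by omega)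
    have hpos : 0 < N / e := Nat.div_pos (Nat.le_of_dvd hNpos (Nat.gcd_dvd_right _ _)) hepos
    have h2 : h0 ^ (a * (N / e)) = 1 := by
      rw [← orderOf_dvd_iff_pow_eq_one]
      have h3 : a * (N / e) = (a / e) * N := by
        obtain ⟨a', ha'⟩ : e ∣ a := Nat.gcd_dvd_left _ _
        obtain ⟨N', hN'⟩ : e ∣ N := Nat.gcd_dvd_right _ _
        have h4 : N / e = N' := by rw [hN', Nat.mul_div_cancel_left _ hepos]
        have h5 : a / e = a' := by
          rw [Nat.div_eq_iff_eq_mul_right hepos (Nat.gcd_dvd_left _ _)]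
          exact ha'
        rw [h4, h5]
        conv_rhs => rw [hN']
        conv_lhs => rw [ha']
        ring
      rw [h3]
      exact dvd_mul_left _ _
    have h3 : h0 ^ (N / e) = 1 := by
      ext y
      apply g.injective
      rw [hpow, h2]
      rfl
    have h4 := orderOf_dvd_of_pow_eq_one h3
    exact absurd (Nat.le_of_dvd hpos h4) (by omega)
  -- the decomposition of `N`
  obtain ⟨k, n, hn, hNkn⟩ := Nat.exists_eq_pow_mul_and_not_dvd hNpos.ne' p hp.out.ne_one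
  have hNnk : N = n * p ^ k := by rw [hNkn, mul_comm]
  have hkpos : 0 < p ^ k := pow_pos hp.out.pos _
  obtain ⟨j, hj⟩ := hF
  have haj : a ≡ p ^ j [MOD n] := by
    have h2 : orderOf (h0 ^ p ^ k) = n := by
      rw [orderOf_pow_of_dvd hkpos.ne' (by rw [← hN, hNnk]; exact dvd_mul_left _ _), ← hN, hNnk,
        Nat.mul_div_cancel _ hkpos]
    have h3 : h0 ^ (a * p ^ k) = h0 ^ (p ^ j * p ^ k) := by
      ext y
      obtain ⟨y', rfl⟩ := g.surjective y
      rw [← hpow]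
      rw [hj (h0 ^ p ^ k) (by
        rw [h2]
        exact ((Nat.Prime.coprime_iff_not_dvd hp.out).2 hn).symm) y', ← pow_mul, mul_comm]
    have h4 := pow_eq_pow_iff_modEq.1 h3
    rw [← hN, hNnk] at h4
    exact Nat.ModEq.mul_right_cancel' hkpos.ne' h4
  -- the value of `χ`
  have hζ : IsPrimitiveRoot ((χ h0 : ℂ_[p]ˣ) : ℂ_[p]) N := by
    have h2 : orderOf ((χ h0 : ℂ_[p]ˣ) : ℂ_[p]) = N := by
      rw [orderOf_units, orderOf_injective χ hχ]
    rw [← h2]
    exact IsPrimitiveRoot.orderOf _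
  obtain ⟨z, hz, hzζ⟩ := exists_prim hNpos hζ
  rw [hNnk] at hz hcop
  obtain ⟨σ, hσ⟩ := exists_gal hn hz hcop haj
  refine ⟨σ, ?_⟩
  intro h h' hh
  obtain ⟨i, hi⟩ := Submonoid.mem_powers_iff _ _ |>.1 (hgen h')
  have h2 : h = h0 ^ (a * i) := by
    ext y
    obtain ⟨y', rfl⟩ := g.surjective y
    rw [← hpow, hi, hh]
  rw [h2, ← hi, map_pow, map_pow, Units.val_pow_eq_pow_val, Units.val_pow_eq_pow_val, ← hzζ,
    map_pow, ext_coe, hσ]
  have h3 : ((z ^ a : PadicAlgCl p) : ℂ_[p]) = (z : ℂ_[p]) ^ a :=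
    map_pow (algebraMap (PadicAlgCl p) ℂ_[p]) z a
  rw [h3, ← pow_mul]

end

end Pool.Agent.H512.IT
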