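import Pool.Graph.R_seed8.W332.SL6.LogC

set_option autoImplicit false

/-!
# Isometric automorphisms of `ℂ_p`
-/

namespace Pool.Agent.H512.IT

open NumberField TensorProduct Pool.Agent.W289.SL Pool.Agent.W332.SL6
open Pool.Agent.W254.PA (ic norm_ic)

variable {p : ℕ} [hp : Fact p.Prime]

/-- the norm on `PadicAlgCl p` is invariant under automorphisms -/
lemma norm_gal (σ : PadicAlgCl p ≃ₐ[ℚ_[p]] PadicAlgCl p) (x : PadicAlgCl p) : ‖σ x‖ = ‖x‖ :=
  (spectralNorm_eq_of_equiv σ x).symm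

lemma continuous_gal (σ : PadicAlgCl p ≃ₐ[ℚ_[p]] PadicAlgCl p) :
    Continuous (σ : PadicAlgCl p →+* PadicAlgCl p) := by
  have h : Isometry (σ : PadicAlgCl p →+* PadicAlgCl p) := by
    apply AddMonoidHomClass.isometry_of_norm
    intro x
    exact norm_gal σ x
  exact h.continuous

/-- the extension of an automorphism of the algebraic closure of `ℚ_p` to `ℂ_p` -/
noncomputable def extHom (σ : PadicAlgCl p ≃ₐ[ℚ_[p]] PadicAlgCl p) : ℂ_[p] →+* ℂ_[p] :=
  UniformSpace.Completion.mapRingHom (σ : PadicAlgCl p →+* PadicAlgCl p) (continuous_gal σ)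

lemma extHom_coe (σ : PadicAlgCl p ≃ₐ[ℚ_[p]] PadicAlgCl p) (x : PadicAlgCl p) :
    extHom σ (x : ℂ_[p]) = ((σ x : PadicAlgCl p) : ℂ_[p]) :=
  UniformSpace.Completion.mapRingHom_coe (continuous_gal σ) x

lemma extHom_comp (σ σ' : PadicAlgCl p ≃ₐ[ℚ_[p]] PadicAlgCl p) (x : ℂ_[p]) :
    extHom σ (extHom σ' x) = extHom (σ * σ') x := by
  have h := UniformSpace.Completion.mapRingHom_comp (continuous_gal σ) (continuous_gal σ')
  exact RingHom.congr_fun h x

lemma extHom_one (x : ℂ_[p]) : extHom (1 : PadicAlgCl p ≃ₐ[ℚ_[p]] PadicAlgCl p) x = x := by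
  have h := UniformSpace.Completion.mapRingHom_id (α := PadicAlgCl p)
  exact RingHom.congr_fun h x

/-- the extension of an automorphism of the algebraic closure of `ℚ_p` to `ℂ_p` -/
noncomputable def ext (σ : PadicAlgCl p ≃ₐ[ℚ_[p]] PadicAlgCl p) : ℂ_[p] ≃+* ℂ_[p] :=
  RingEquiv.ofRingHom (extHom σ) (extHom σ⁻¹)
    (by ext x; exact (extHom_comp σ σ⁻¹ x).trans (by rw [mul_inv_cancel]; exact extHom_one x))
    (by ext x; exact (extHom_comp σ⁻¹ σ x).trans (by rw [inv_mul_cancel]; exact extHom_one x))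

lemma ext_coe (σ : PadicAlgCl p ≃ₐ[ℚ_[p]] PadicAlgCl p) (x : PadicAlgCl p) :
    ext σ (x : ℂ_[p]) = ((σ x : PadicAlgCl p) : ℂ_[p]) := extHom_coe σ x

/-- isometric automorphisms of `ℂ_p` -/
def Isom (τ : ℂ_[p] ≃+* ℂ_[p]) : Prop := ∀ x, ‖τ x‖ = ‖x‖

lemma ext_isom (σ : PadicAlgCl p ≃ₐ[ℚ_[p]] PadicAlgCl p) : Isom (ext σ) := by
  intro x
  induction x using UniformSpace.Completion.induction_on with
  | hp =>
    apply isClosed_eq
    · apply continuous_norm.comp
      exact UniformSpace.Completion.continuous_map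
    · exact continuous_norm
  | ih x =>
    rw [ext_coe, UniformSpace.Completion.norm_coe, UniformSpace.Completion.norm_coe, norm_gal]

lemma Isom.symm {τ : ℂ_[p] ≃+* ℂ_[p]} (h : Isom τ) : Isom τ.symm := by
  intro x
  rw [← h (τ.symm x), τ.apply_symm_apply]

lemma Isom.continuous {τ : ℂ_[p] ≃+* ℂ_[p]} (h : Isom τ) : Continuous τ := by
  have h1 : Isometry τ := AddMonoidHomClass.isometry_of_norm τ h
  exact h1.continuous

/-- conjugates of Iwasawa's logarithm -/
lemma conj_log {τ : ℂ_[p] ≃+* ℂ_[p]} (hτ : Isom τ) {L : ℂ_[p] → ℂ_[p]} (hL : IsIwasawaLog p L) :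
    IsIwasawaLog p (fun z => τ.symm (L (τ z))) where
  mul x y hx hy := by
    rw [map_mul, hL.mul _ _ (by simpa using hx) (by simpa using hy), map_add]
  prime := by
    rw [map_natCast, hL.prime, map_zero]
  ser z hz := by
    have h1 := hL.ser (τ z) (by rw [hτ]; exact hz)
    have h2 := h1.map τ.symm hτ.symm.continuous
    rw [map_add, map_one]
    convert h2 using 2 with n
    simp only [Function.comp_apply, map_div₀, map_mul, map_pow, map_neg, map_one, map_add,
      map_natCast, RingEquiv.symm_apply_apply]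

lemma log_tau {τ : ℂ_[p] ≃+* ℂ_[p]} (hτ : Isom τ) {L : ℂ_[p] → ℂ_[p]} (hL : IsIwasawaLog p L)
    {u : ℂ_[p]} (hu : NearU u) : L (τ u) = τ (L u) := by
  have h1 := log_unique (conj_log hτ hL) hL hu
  rw [← h1, τ.apply_symm_apply]

end Pool.Agent.H512.IT
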