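import Pool.Agent.H512.IT.Wild
import Pool.Agent.H512.IT.Auto

set_option autoImplicit false
set_option linter.unusedSectionVars false

/-!
# Approximation by roots of unity, automorphisms of `ℂ_p` acting trivially on given residues
-/

namespace Pool.Agent.H512.IT

open Polynomial Pool.Agent.W332.SL6
open Pool.Agent.W254.PA (exists_pow_near)

variable {p : ℕ} [hp : Fact p.Prime]

lemma norm_p_lt_one : ‖(p : PadicAlgCl p)‖ < 1 := by
  have h1 : ‖(p : PadicAlgCl p)‖ = ‖(p : ℚ_[p])‖ := by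
    rw [← map_natCast (algebraMap ℚ_[p] (PadicAlgCl p)) p]
    exact PadicAlgCl.norm_extends p _
  rw [h1]
  exact Padic.norm_p_lt_one

lemma nsub_le_max {V : Type} [SeminormedAddCommGroup V] [IsUltrametricDist V] (a b : V) :
    ‖a - b‖ ≤ max ‖a‖ ‖b‖ := by
  rw [sub_eq_add_neg]
  refine (IsUltrametricDist.norm_add_le_max _ _).trans ?_
  rw [norm_neg]

/-- the Frobenius of the residue field is injective -/
lemma frob_inj {y : PadicAlgCl p} (hy : ‖y‖ ≤ 1) (h : ‖y ^ p - 1‖ < 1) : ‖y - 1‖ < 1 := by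
  have hy1 : y ∈ intg p := mem_intg.2 hy
  let z : intg p := ⟨y, hy1⟩
  obtain ⟨r, hr⟩ := exists_add_pow_prime_eq hp.out (z - 1) (1 : intg p)
  rw [sub_add_cancel] at hr
  have h2 := congrArg (fun x : intg p => (x : PadicAlgCl p)) hr
  simp only [Subring.coe_pow, Subring.coe_add, Subring.coe_mul, AddSubgroupClass.coe_sub, Subring.coe_one,
    Subring.coe_natCast, mul_one, one_pow] at h2
  have h3 : (y - 1) ^ p = (y ^ p - 1) - (p : PadicAlgCl p) * (y - 1) * (r : PadicAlgCl p) := by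
    have h4 : y ^ p = (y - 1) ^ p + 1 + (p : PadicAlgCl p) * (y - 1) * (r : PadicAlgCl p) := h2
    rw [h4]
    ring
  have h4 : ‖(y - 1) ^ p‖ < 1 := by
    rw [h3]
    refine lt_of_le_of_lt (nsub_le_max _ _) (max_lt h ?_)
    rw [norm_mul, norm_mul]
    have h5 : ‖(r : PadicAlgCl p)‖ ≤ 1 := r.2
    have h6 : ‖y - 1‖ ≤ 1 := (mem_intg (p := p)).1 (Subring.sub_mem _ hy1 (Subring.one_mem _))
    calc ‖(p : PadicAlgCl p)‖ * ‖y - 1‖ * ‖(r : PadicAlgCl p)‖
        ≤ ‖(p : PadicAlgCl p)‖ * 1 * 1 := by gcongr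
      _ < 1 := by rw [mul_one, mul_one]; exact norm_p_lt_one
  rw [norm_pow] at h4
  by_contra hcon
  push Not at hcon
  exact absurd (one_le_pow₀ hcon) (not_le.2 h4)

lemma frob_inj_iter (a : ℕ) {y : PadicAlgCl p} (hy : ‖y‖ ≤ 1) (h : ‖y ^ p ^ a - 1‖ < 1) :
    ‖y - 1‖ < 1 := by
  induction a with
  | zero => simpa using h
  | succ a ih =>
    apply ih
    apply frob_inj
    · rw [norm_pow]
      exact pow_le_one₀ (norm_nonneg _) hy
    · rw [← pow_mul, ← pow_succ]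
      exact h

lemma exists_lt_one_of_prod (s : Multiset (PadicAlgCl p)) (h : ‖s.prod‖ < 1) :
    ∃ a ∈ s, ‖a‖ < 1 := by
  induction s using Multiset.induction_on with
  | empty => simp at h
  | cons a s ih =>
    rw [Multiset.prod_cons, norm_mul] at h
    by_cases ha : ‖a‖ < 1
    · exact ⟨a, Multiset.mem_cons_self _ _, ha⟩
    · push Not at ha
      have h1 : ‖s.prod‖ < 1 := by
        by_contra hcon
        push Not at hcon
        nlinarith
      obtain ⟨b, hb, hb'⟩ := ih h1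
      exact ⟨b, Multiset.mem_cons_of_mem hb, hb'⟩

/-- Hensel: an element with `v ^ n ≡ 1` is congruent to a root of unity -/
lemma exists_root_near {n : ℕ} (hn : 0 < n) {v : PadicAlgCl p} (h : ‖v ^ n - 1‖ < 1) :
    ∃ z : PadicAlgCl p, z ^ n = 1 ∧ ‖v - z‖ < 1 := by
  have hsp := IsAlgClosed.splits (X ^ n - 1 : (PadicAlgCl p)[X])
  have hmon : (X ^ n - 1 : (PadicAlgCl p)[X]).Monic := monic_X_pow_sub_C 1 hn.ne'
  have h1 : eval v (X ^ n - 1 : (PadicAlgCl p)[X]) = ((X ^ n - 1 : (PadicAlgCl p)[X]).roots.map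
      fun a => v - a).prod := hsp.eval_eq_prod_roots_of_monic hmon v
  have h2 : eval v (X ^ n - 1 : (PadicAlgCl p)[X]) = v ^ n - 1 := by simp
  rw [h2] at h1
  rw [h1] at h
  obtain ⟨b, hb, hb'⟩ := exists_lt_one_of_prod _ h
  obtain ⟨z, hz, rfl⟩ := Multiset.mem_map.1 hb
  refine ⟨z, ?_, hb'⟩
  rw [mem_roots'] at hz
  have h3 := hz.2
  rw [IsRoot.def, eval_sub, eval_pow, eval_X, eval_one, sub_eq_zero] at h3
  exact h3

/-- the residue field of `ℂ_p` consists of the residues of roots of unity of order prime to `p` -/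
lemma exists_teich (c : ℂ_[p]) (hc : ‖c‖ = 1) : ∃ n : ℕ, ¬ p ∣ n ∧ ∃ z : PadicAlgCl p,
    z ^ n = 1 ∧ ‖c - (z : ℂ_[p])‖ < 1 := by
  obtain ⟨v, hv⟩ : ∃ v : PadicAlgCl p, ‖c - (v : ℂ_[p])‖ < 1 := by
    have h1 := Metric.mem_closure_iff.1
      ((UniformSpace.Completion.denseRange_coe (α := PadicAlgCl p)) c) 1 one_pos
    obtain ⟨_, ⟨v, rfl⟩, hv⟩ := h1
    exact ⟨v, by rwa [dist_eq_norm] at hv⟩
  have hv1 : ‖v‖ = 1 := by
    have h2 : ‖(v : ℂ_[p])‖ = 1 := by
      have h3 := IsUltrametricDist.norm_eq_of_add_norm_lt_max (x := c) (y := -(v : ℂ_[p])) (by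
        rw [← sub_eq_add_neg]
        refine lt_of_lt_of_le hv ?_
        rw [hc]
        exact le_max_left _ _)
      rw [← norm_neg, ← h3, hc]
    rwa [UniformSpace.Completion.norm_coe] at h2
  obtain ⟨N, hN, hN1⟩ := exists_pow_near p v hv1 1 one_pos
  obtain ⟨a, n, hn, hNn⟩ := Nat.exists_eq_pow_mul_and_not_dvd (by omega : N ≠ 0) p hp.out.ne_one
  have h4 : ‖v ^ n - 1‖ < 1 := by
    apply frob_inj_iter a
    · rw [norm_pow, hv1, one_pow]
    · rw [← pow_mul, mul_comm, ← hNn]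
      exact hN1
  have hn0 : 0 < n := Nat.pos_of_ne_zero (by rintro rfl; exact hn (dvd_zero _))
  obtain ⟨z, hz, hz'⟩ := exists_root_near hn0 h4
  refine ⟨n, hn, z, hz, ?_⟩
  have h5 : c - (z : ℂ_[p]) = (c - v) + ((v - z : PadicAlgCl p) : ℂ_[p]) := by
    rw [UniformSpace.Completion.coe_sub]
    ring
  rw [h5]
  refine lt_of_le_of_lt (IsUltrametricDist.norm_add_le_max _ _) (max_lt hv ?_)
  rw [UniformSpace.Completion.norm_coe]
  exact hz'

/-- a common exponent for a finite family -/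
lemma exists_teich_family {ι : Type} (s : Finset ι) (c : ι → ℂ_[p]) :
    ∃ n : ℕ, ¬ p ∣ n ∧ ∀ i ∈ s, ‖c i‖ = 1 → ∃ z : PadicAlgCl p, z ^ n = 1 ∧
      ‖c i - (z : ℂ_[p])‖ < 1 := by
  classical
  induction s using Finset.induction_on with
  | empty => exact ⟨1, by rw [Nat.dvd_one]; exact hp.out.ne_one, by simp⟩
  | insert i s _ ih =>
    obtain ⟨n, hn, h⟩ := ih
    by_cases hi : ‖c i‖ = 1
    · obtain ⟨m, hm, z, hz, hz'⟩ := exists_teich (c i) hi
      refine ⟨n * m, ?_, ?_⟩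
      · rw [hp.out.dvd_mul]
        tauto
      · intro j hj hj1
        rcases Finset.mem_insert.1 hj with rfl | hj
        · exact ⟨z, by rw [mul_comm, pow_mul, hz, one_pow], hz'⟩
        · obtain ⟨w, hw, hw'⟩ := h j hj hj1
          exact ⟨w, by rw [pow_mul, hw, one_pow], hw'⟩
    · refine ⟨n, hn, ?_⟩
      intro j hj hj1
      rcases Finset.mem_insert.1 hj with rfl | hj
      · exact absurd hj1 hi
      · exact h j hj hj1

/-- an automorphism which fixes the roots of unity acts trivially on the residues -/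
lemma resid {σ : PadicAlgCl p ≃ₐ[ℚ_[p]] PadicAlgCl p} {n : ℕ}
    (hσ : ∀ z : PadicAlgCl p, z ^ n = 1 → σ z = z) {c : ℂ_[p]}
    (h : ∃ z : PadicAlgCl p, z ^ n = 1 ∧ ‖c - (z : ℂ_[p])‖ < 1) : ‖ext σ c - c‖ < 1 := by
  obtain ⟨z, hz, hz'⟩ := h
  have h1 : ext σ c - c = ext σ (c - z) - (c - z) := by
    rw [map_sub, ext_coe, hσ z hz]
    ring
  rw [h1]
  refine lt_of_le_of_lt (nsub_le_max _ _) (max_lt ?_ hz')
  rw [ext_isom σ]
  exact hz'

end Pool.Agent.H512.IT
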