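import Pool.Agent.H512.IT.Grp
import Pool.Agent.H512.IT.Teich
import Pool.Agent.H512.IT.Tau

set_option autoImplicit false
set_option linter.unusedSectionVars false

/-!
# Existence of a residually trivial automorphism `τ` compatible with all characters
-/

namespace Pool.Agent.H512.IT

open NumberField TensorProduct Pool.Agent.W289.SL Pool.Agent.W332.SL6

variable {p : ℕ} [hp : Fact p.Prime]

section kap

variable {k H : Type} [Field k] [NumberField k] [Field H] [NumberField H] [Algebra k H]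
  [FiniteDimensional k H]

/-- the conjugation `h ↦ g h g⁻¹` -/
noncomputable def kap {γ : k ≃ₐ[ℚ] k} {g : H ≃ₐ[ℚ] H} (hg : Lifts γ g) :
    (H ≃ₐ[k] H) →* (H ≃ₐ[k] H) where
  toFun h := (exists_conj' hg h).choose
  map_one' := by
    ext y
    obtain ⟨y', rfl⟩ := g.surjective y
    rw [← (exists_conj' hg (1 : H ≃ₐ[k] H)).choose_spec y']
    rfl
  map_mul' a b := by
    ext y
    obtain ⟨y', rfl⟩ := g.surjective y
    rw [← (exists_conj' hg (a * b)).choose_spec y', AlgEquiv.mul_apply, AlgEquiv.mul_apply,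
      ← (exists_conj' hg b).choose_spec y', ← (exists_conj' hg a).choose_spec]

lemma kap_spec {γ : k ≃ₐ[ℚ] k} {g : H ≃ₐ[ℚ] H} (hg : Lifts γ g) (h : H ≃ₐ[k] H) (y : H) :
    g (h y) = kap hg h (g y) := (exists_conj' hg h).choose_spec y

lemma kap_unique {γ : k ≃ₐ[ℚ] k} {g : H ≃ₐ[ℚ] H} (hg : Lifts γ g) {h h' : H ≃ₐ[k] H}
    (hh : ∀ y, g (h' y) = h (g y)) : kap hg h' = h := by
  ext y
  obtain ⟨y', rfl⟩ := g.surjective y
  rw [← kap_spec, hh]

lemma kap_injective {γ : k ≃ₐ[ℚ] k} {g : H ≃ₐ[ℚ] H} (hg : Lifts γ g) :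
    Function.Injective (kap hg) := by
  intro a b hab
  ext y
  apply g.injective
  rw [kap_spec hg, kap_spec hg, hab]

lemma kap_iter {γ : k ≃ₐ[ℚ] k} {g : H ≃ₐ[ℚ] H} (hg : Lifts γ g) (r : ℕ) (h : H ≃ₐ[k] H) (y : H) :
    (g ^ r) (h y) = (kap hg)^[r] h ((g ^ r) y) := by
  induction r generalizing h y with
  | zero => rfl
  | succ r ih =>
    rw [pow_succ, AlgEquiv.mul_apply, kap_spec hg, ih, Function.iterate_succ_apply,
      AlgEquiv.mul_apply]

lemma kap_iter_eq (hab : ∀ a b : H ≃ₐ[k] H, a * b = b * a) {γ : k ≃ₐ[ℚ] k} {g : H ≃ₐ[ℚ] H}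
    (hg : Lifts γ g) {r : ℕ} (hr : ∃ a : H ≃ₐ[k] H, ∀ y, (g ^ r) y = a y) (h : H ≃ₐ[k] H) :
    (kap hg)^[r] h = h := by
  obtain ⟨a, ha⟩ := hr
  ext y
  obtain ⟨y', rfl⟩ := (g ^ r).surjective y
  rw [← kap_iter, ha, ha, ← AlgEquiv.mul_apply, ← AlgEquiv.mul_apply, hab]

end kap

section main

variable {k K H : Type} [Field k] [NumberField k] [Field K] [NumberField K] [Field H]
  [NumberField H] [Algebra k K] [Algebra k H] [Algebra K H] [IsScalarTower k K H]
  [FiniteDimensional k H] [FiniteDimensional K H] [FiniteDimensional k K] [IsGalois k K]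

/-- **Residually trivial automorphisms.** For every `n₀` prime to `p` there is an automorphism of
the algebraic closure of `ℚ_p` which fixes the roots of unity of order `n₀` and is compatible with
`g` for all characters of the commutative group `Gal(H/k)`. -/
theorem exists_sigma (hab : ∀ a b : H ≃ₐ[k] H, a * b = b * a)
    (hKab : ∀ a b : K ≃ₐ[ℚ] K, a * b = b * a) {γk : k ≃ₐ[ℚ] k} {γ : K ≃ₐ[ℚ] K} {g : H ≃ₐ[ℚ] H}
    (hgk : Lifts γk g) (hgK : Lifts γ g) (χ : (H ≃ₐ[K] H) →* ℂ_[p]ˣ)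
    (hχ : Function.Injective χ)
    (hfix : ∀ h : H ≃ₐ[K] H, (orderOf h).Coprime p → ∀ y, g (h y) = h (g y)) {r : ℕ}
    (hr : ∃ a : H ≃ₐ[k] H, ∀ y, (g ^ r) y = a y)
    (hru : Nat.Coprime (Module.finrank k K) r) (hpu : ¬ p ∣ Module.finrank k K) {n₀ : ℕ}
    (hn₀ : ¬ p ∣ n₀) :
    ∃ σ : PadicAlgCl p ≃ₐ[ℚ_[p]] PadicAlgCl p, (∀ z : PadicAlgCl p, z ^ n₀ = 1 → σ z = z) ∧
      ∀ ψ : (H ≃ₐ[k] H) →* ℂ_[p]ˣ, Compat (ext σ) g ψ := by
  classical
  let res : (H ≃ₐ[k] H) →* (K ≃ₐ[k] K) := AlgEquiv.restrictNormalHom K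
  have hres : ∀ (h : H ≃ₐ[k] H) (x : K), h (algebraMap K H x) = algebraMap K H (res h x) :=
    fun h x => (AlgEquiv.restrictNormal_commutes h K x).symm
  let B : Subgroup (H ≃ₐ[k] H) := res.ker
  have hB : ∀ h : H ≃ₐ[k] H, h ∈ B ↔ ∀ x : K, h (algebraMap K H x) = algebraMap K H x := by
    intro h
    rw [MonoidHom.mem_ker]
    constructor
    · intro h1 x
      rw [hres, h1]
      rfl
    · intro h1
      ext x
      apply (algebraMap K H).injective
      rw [← hres, h1]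
      rfl
  -- the elements of `B` as automorphisms over `K`
  have hBK : ∀ h ∈ B, ∃ h' : H ≃ₐ[K] H, ∀ y, h' y = h y := by
    intro h hh
    rw [hB] at hh
    exact ⟨AlgEquiv.ofRingEquiv (f := (h : H ≃+* H)) hh, fun y => rfl⟩
  -- a generator
  have hcyc : IsCyclic (H ≃ₐ[K] H) :=
    isCyclic_of_injective_ringHom ((Units.coeHom ℂ_[p]).comp χ) (by
      intro a b h
      exact hχ (Units.ext h))
  obtain ⟨h0, hgen⟩ := hcyc.exists_monoid_generator
  let h0' : H ≃ₐ[k] H := h0.restrictScalars k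
  have hpow : ∀ i y, (h0 ^ i) y = (h0' ^ i) y := by
    intro i
    induction i with
    | zero => intro y; rfl
    | succ i ih =>
      intro y
      rw [pow_succ, pow_succ, AlgEquiv.mul_apply, AlgEquiv.mul_apply, ih]
      rfl
  have hgen' : ∀ b ∈ B, ∃ i : ℕ, b = h0' ^ i := by
    intro b hb
    obtain ⟨b', hb'⟩ := hBK b hb
    obtain ⟨i, hi⟩ := Submonoid.mem_powers_iff _ _ |>.1 (hgen b')
    refine ⟨i, ?_⟩
    ext y
    rw [← hpow, hi, hb']
  have h0B : h0' ∈ B := by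
    rw [hB]
    intro x
    exact h0.commutes x
  -- restrictions to `K`
  have hAB : ∀ a, kap hgk a * a⁻¹ ∈ B := by
    intro a
    rw [MonoidHom.mem_ker, map_mul, map_inv, mul_inv_eq_one]
    ext x
    obtain ⟨x', rfl⟩ := γ.surjective x
    apply (algebraMap K H).injective
    rw [← hres, ← hgK, ← kap_spec, hres, hgK]
    congr 1
    have h1 := congrArg (fun f : K ≃ₐ[ℚ] K => f x') (hKab γ ((res a).restrictScalars ℚ))
    exact h1
  have hu : ∀ a : H ≃ₐ[k] H, a ^ Module.finrank k K ∈ B := by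
    intro a
    rw [MonoidHom.mem_ker, map_pow, ← IsGalois.card_aut_eq_finrank]
    exact pow_card_eq_one'
  have hfixB : ∀ b ∈ B, (orderOf b).Coprime p → kap hgk b = b := by
    intro b hb hbo
    obtain ⟨b', hb'⟩ := hBK b hb
    have hbpow : ∀ i y, (b' ^ i) y = (b ^ i) y := by
      intro i
      induction i with
      | zero => intro y; rfl
      | succ i ih =>
        intro y
        rw [pow_succ, pow_succ, AlgEquiv.mul_apply, AlgEquiv.mul_apply, ih, hb']
    have hbo' : orderOf b' ∣ orderOf b := by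
      apply orderOf_dvd_of_pow_eq_one
      ext y
      rw [hbpow, pow_orderOf_eq_one]
      rfl
    apply kap_unique
    intro y
    have h1 := hfix b' (Nat.Coprime.coprime_dvd_left hbo' hbo) y
    rw [hb', hb'] at h1
    exact h1
  obtain ⟨a, n, e, hn, hn0n, hcop, hmod, hall⟩ := exists_power (p := p) hab (kap hgk)
    (kap_injective hgk) B h0B hgen' hAB r (Module.finrank k K)
    (kap_iter_eq hab hgk hr) hu hru hpu hfixB n₀ hn₀
  have hNpos : 0 < n * p ^ e := Nat.pos_of_ne_zero (mul_ne_zero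
    (by rintro rfl; exact hn (dvd_zero _)) (pow_pos hp.out.pos _).ne')
  have : NeZero (n * p ^ e) := ⟨hNpos.ne'⟩
  have : NeZero ((n * p ^ e : ℕ) : PadicAlgCl p) := ⟨by exact_mod_cast hNpos.ne'⟩
  obtain ⟨ζ, hζ⟩ := HasEnoughRootsOfUnity.exists_primitiveRoot (PadicAlgCl p) (n * p ^ e)
  obtain ⟨σ, hσ⟩ := exists_gal hn hζ hcop (j := 0) (by simpa using hmod)
  have hσz : ∀ z : PadicAlgCl p, z ^ (n * p ^ e) = 1 → σ z = z ^ a := by
    intro z hz
    obtain ⟨i, -, rfl⟩ := hζ.eq_pow_of_pow_eq_one hz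
    rw [map_pow, hσ, ← pow_mul, ← pow_mul, mul_comm]
  refine ⟨σ, ?_, ?_⟩
  · intro z hz
    obtain ⟨m, hm⟩ := hn0n
    have hzn : z ^ n = 1 := by rw [hm, pow_mul, hz, one_pow]
    rw [hσz z (by rw [pow_mul, hzn, one_pow]), pow_eq_of_modEq hzn hmod, pow_one]
  · intro ψ h h' hh
    have h1 : kap hgk h' = h := kap_unique hgk hh
    rw [← h1, (hall h').1, map_pow, Units.val_pow_eq_pow_val]
    -- the value is a root of unity of the algebraic closure
    have h2 : ((ψ h' : ℂ_[p]ˣ) : ℂ_[p]) ^ (n * p ^ e) = 1 := by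
      rw [← Units.val_pow_eq_pow_val, ← map_pow, (hall h').2, map_one, Units.val_one]
    have h3 : IsPrimitiveRoot ((ψ h' : ℂ_[p]ˣ) : ℂ_[p])
        (orderOf ((ψ h' : ℂ_[p]ˣ) : ℂ_[p])) := IsPrimitiveRoot.orderOf _
    have h4 : orderOf ((ψ h' : ℂ_[p]ˣ) : ℂ_[p]) ∣ n * p ^ e := orderOf_dvd_of_pow_eq_one h2
    obtain ⟨w, hw, hw'⟩ := exists_prim (Nat.pos_of_dvd_of_pos h4 hNpos) h3
    obtain ⟨c, hc⟩ := h4
    rw [← hw', ext_coe, hσz w (by rw [hc, pow_mul, hw.pow_eq_one, one_pow])]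
    exact (map_pow (algebraMap (PadicAlgCl p) ℂ_[p]) w a).symm

end main

end Pool.Agent.H512.IT
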