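import Pool.Agent.H512.IT.Core
import Pool.Agent.H512.IT.Sigma
import Pool.Agent.H512.IT.OddK

set_option autoImplicit false
set_option linter.unusedSectionVars false

/-!
# The theorem on all CM types of abelian CM fields of degree `2 d`, `d` odd
-/

namespace Pool.Agent.H512.IT

open NumberField TensorProduct Pool.Agent.W289.SL Pool.Agent.W332.SL6
open scoped Nat

variable {p : ℕ} [hp : Fact p.Prime]

section

variable {K k H : Type} [Field K] [NumberField K] [Field k] [NumberField k] [Algebra k K]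
  [Field H] [NumberField H] [Algebra K H] [Algebra k H] [IsScalarTower k K H]
  [FiniteDimensional k H] [FiniteDimensional K H] [FiniteDimensional k K] [IsGalois k K]
  [IsGalois k H] [IsGalois K H]

lemma norm_chi (ψ : (H ≃ₐ[k] H) →* ℂ_[p]ˣ) (h : H ≃ₐ[k] H) :
    ‖((ψ h : ℂ_[p]ˣ) : ℂ_[p])‖ = 1 := by
  have h1 : ((ψ h : ℂ_[p]ˣ) : ℂ_[p]) ^ Fintype.card (H ≃ₐ[k] H) = 1 := by
    rw [← Units.val_pow_eq_pow_val, ← map_pow, pow_card_eq_one, map_one, Units.val_one]
  have h2 := congrArg norm h1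
  rw [norm_pow, norm_one] at h2
  exact (pow_eq_one_iff_of_nonneg (norm_nonneg _) Fintype.card_ne_zero).1 h2

/-- the sum of the projections to the characters with the same restriction to `Gal(H/K)` is a
combination of the conjugates under `Gal(H/K)` -/
lemma sum_prj_zero [Fintype ((K ≃ₐ[k] K) →* ℂ_[p]ˣ)]
    (hKab : ∀ a b : K ≃ₐ[k] K, a * b = b * a) (ψ₀ : (H ≃ₐ[k] H) →* ℂ_[p]ˣ)
    {L : ℂ_[p] → ℂ_[p]} (hL : IsIwasawaLog p L) {x : UM p H} {S : Set (K →+* ℂ_[p])}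
    (h0 : ∀ σ : H →+* ℂ_[p], σ.comp (algebraMap K H) ∈ S → logLin hL σ x = 0)
    (s : H →+* ℂ_[p]) (hs : s.comp (algebraMap K H) ∈ S) :
    ∑ ω : (K ≃ₐ[k] K) →* ℂ_[p]ˣ,
      logLin hL s (prj (ψ₀ * ω.comp (AlgEquiv.restrictNormalHom K)) x) = 0 := by
  classical
  have h1 : ∀ ω : (K ≃ₐ[k] K) →* ℂ_[p]ˣ,
      logLin hL s (prj (ψ₀ * ω.comp (AlgEquiv.restrictNormalHom K)) x) =
      ∑ a : H ≃ₐ[k] H, ((ω (AlgEquiv.restrictNormalHom K a)⁻¹ : ℂ_[p]ˣ) : ℂ_[p]) *
        (((ψ₀ a⁻¹ : ℂ_[p]ˣ) : ℂ_[p]) * logLin hL (s.comp (a : H →+* H)) x) := by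
    intro ω
    unfold prj
    rw [map_sum]
    refine Finset.sum_congr rfl fun a _ => ?_
    have hi : (AlgEquiv.restrictNormalHom K a)⁻¹ =
        (AlgEquiv.restrictNormalHom K : (H ≃ₐ[k] H) →* (K ≃ₐ[k] K)) a⁻¹ := (map_inv _ _).symm
    rw [map_smul, logLin_push, smul_eq_mul, MonoidHom.mul_apply, MonoidHom.comp_apply,
      Units.val_mul, hi]
    ring
  rw [Finset.sum_congr rfl (fun ω _ => h1 ω), Finset.sum_comm]
  apply Finset.sum_eq_zero
  intro a _
  rw [← Finset.sum_mul]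
  by_cases ha : AlgEquiv.restrictNormalHom K a = 1
  · rw [h0 (s.comp (a : H →+* H)), mul_zero, mul_zero]
    have h2 : (s.comp (a : H →+* H)).comp (algebraMap K H) = s.comp (algebraMap K H) := by
      ext y
      change s (a (algebraMap K H y)) = s (algebraMap K H y)
      have h3 := AlgEquiv.restrictNormal_commutes a K y
      have h4 : (AlgEquiv.restrictNormal a K) y = y := by
        have h5 := congrArg (fun f : K ≃ₐ[k] K => f y) ha
        exact h5
      rw [← h3, h4]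
    rw [h2]
    exact hs
  · have h2 : ∑ ω : (K ≃ₐ[k] K) →* ℂ_[p]ˣ,
        ((ω (AlgEquiv.restrictNormalHom K a)⁻¹ : ℂ_[p]ˣ) : ℂ_[p]) = 0 := by
      let : CommGroup (K ≃ₐ[k] K) :=
        { (inferInstance : Group (K ≃ₐ[k] K)) with mul_comm := hKab }
      obtain ⟨η, hη⟩ := CommGroup.exists_apply_ne_one_of_hasEnoughRootsOfUnity (K ≃ₐ[k] K) ℂ_[p]
        (a := (AlgEquiv.restrictNormalHom K a)⁻¹) (by rwa [Ne, inv_eq_one])
      have h1 : ((η (AlgEquiv.restrictNormalHom K a)⁻¹ : ℂ_[p]ˣ) : ℂ_[p]) *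
          ∑ ψ : (K ≃ₐ[k] K) →* ℂ_[p]ˣ, ((ψ (AlgEquiv.restrictNormalHom K a)⁻¹ : ℂ_[p]ˣ) : ℂ_[p]) =
          ∑ ψ : (K ≃ₐ[k] K) →* ℂ_[p]ˣ,
            ((ψ (AlgEquiv.restrictNormalHom K a)⁻¹ : ℂ_[p]ˣ) : ℂ_[p]) := by
        rw [Finset.mul_sum]
        rw [← Equiv.sum_comp (Equiv.mulLeft η) (fun ψ : (K ≃ₐ[k] K) →* ℂ_[p]ˣ =>
          ((ψ (AlgEquiv.restrictNormalHom K a)⁻¹ : ℂ_[p]ˣ) : ℂ_[p]))]
        refine Finset.sum_congr rfl fun ψ _ => ?_
        rw [Equiv.coe_mulLeft, MonoidHom.mul_apply, Units.val_mul]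
      have h2 : (((η (AlgEquiv.restrictNormalHom K a)⁻¹ : ℂ_[p]ˣ) : ℂ_[p]) - 1) *
          ∑ ψ : (K ≃ₐ[k] K) →* ℂ_[p]ˣ,
            ((ψ (AlgEquiv.restrictNormalHom K a)⁻¹ : ℂ_[p]ˣ) : ℂ_[p]) = 0 := by
        rw [sub_mul, h1, one_mul, sub_self]
      rcases mul_eq_zero.1 h2 with h3 | h3
      · exact absurd (Units.ext (sub_eq_zero.1 h3)) hη
      · exact h3
    rw [h2, zero_mul]

end

section

variable {F K k H : Type} [Field F] [NumberField F] [Field K] [NumberField K] [Algebra F K]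
  [Field k] [NumberField k] [Algebra k K]
  [Field H] [NumberField H] [Algebra K H] [Algebra k H] [IsScalarTower k K H]
  [FiniteDimensional k H] [FiniteDimensional K H] [FiniteDimensional k K] [IsGalois k K]
  [IsGalois k H] [IsGalois K H] [IsGalois ℚ K] [IsGalois ℚ H]

/-- **All CM types.** -/
theorem all_types (hFK : Module.finrank F K = 2) (hk : Module.finrank ℚ k = 2)
    (hodd : Odd (Module.finrank ℚ F)) (hKab : ∀ a b : K ≃ₐ[ℚ] K, a * b = b * a)
    (hp2 : p = 2 ∨ (Module.finrank ℚ F)! ^ Module.finrank ℚ F < p)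
    {S : Set (K →+* ℂ_[p])} (hS : IsCMType p F K S) (hord : Ordinary S)
    (hpl : ∀ w w' : InfinitePlace k, w = w') (hab : ∀ a b : H ≃ₐ[k] H, a * b = b * a)
    (χ : (H ≃ₐ[K] H) →* ℂ_[p]ˣ) (hχ : Function.Injective χ)
    (hcen : ∀ h : H ≃ₐ[K] H, (orderOf h).Coprime p → ∀ g : H ≃ₐ[ℚ] H, ∀ y, g (h y) = h (g y))
    {L : ℂ_[p] → ℂ_[p]} (hL : IsIwasawaLog p L) {x : UM p H}
    (h0 : ∀ σ : H →+* ℂ_[p], σ.comp (algebraMap K H) ∈ S → logLin hL σ x = 0) : x = 0 := by
  classical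
  have hkK := finrank_kK (k := k) hFK hk
  have hodd' : Odd (Module.finrank k K) := by rw [hkK]; exact hodd
  obtain ⟨c, ⟨c₀, hc₀, hcc₀⟩, hcc, hc1⟩ := exists_c hFK
  have hSc := hS c₀ hc₀
  have hccx : ∀ y, c (c y) = y := fun y => congrArg (fun f : K ≃ₐ[ℚ] K => f y) hcc
  obtain ⟨ck, hck⟩ := exists_restr hk c
  -- an extension of the complex conjugation
  obtain ⟨g, hg'⟩ := AlgEquiv.restrictNormalHom_surjective (F := ℚ) (K₁ := K) H c
  have hg : Lifts c g := by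
    intro y
    rw [← hg']
    exact (AlgEquiv.restrictNormal_commutes g K y).symm
  have hgk : Lifts ck g := by
    intro y
    rw [IsScalarTower.algebraMap_apply k K H, hg, hck, ← IsScalarTower.algebraMap_apply]
  have hckk : ∀ y, ck (ck y) = y := by
    intro y
    apply (algebraMap k K).injective
    rw [← hck, ← hck, hccx]
  obtain ⟨a0, ha0⟩ : ∃ a : H ≃ₐ[k] H, ∀ y, (g ^ 2) y = a y := by
    refine ⟨AlgEquiv.ofRingEquiv (f := ((g ^ 2 : H ≃ₐ[ℚ] H) : H ≃+* H)) ?_, fun y => rfl⟩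
    intro y
    change (g ^ 2) (algebraMap k H y) = _
    rw [pow_two, AlgEquiv.mul_apply, hgk, hgk, hckk]
  have ha0' : ∀ y, a0 y = g (g y) := by
    intro y
    rw [← ha0, pow_two, AlgEquiv.mul_apply]
  have hpu : ¬ p ∣ Module.finrank k K := by
    rw [hkK]
    rcases hp2 with h | h
    · rw [h]
      intro h2
      exact (Nat.not_even_iff_odd.2 hodd) (even_iff_two_dvd.2 h2)
    · intro h2
      have h3 := Nat.le_of_dvd hodd.pos h2
      have h4 := Nat.self_le_factorial (Module.finrank ℚ F)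
      have h5 : (Module.finrank ℚ F)! ≤ (Module.finrank ℚ F)! ^ Module.finrank ℚ F :=
        Nat.le_self_pow hodd.pos.ne' _
      omega
  -- the groups
  have hΔab : ∀ a b : K ≃ₐ[k] K, a * b = b * a := by
    intro a b
    ext y
    have h1 := congrArg (fun f : K ≃ₐ[ℚ] K => f y) (hKab (a.restrictScalars ℚ)
      (b.restrictScalars ℚ))
    exact h1
  let : CommGroup (H ≃ₐ[k] H) :=
    { (inferInstance : Group (H ≃ₐ[k] H)) with mul_comm := hab }
  let : CommGroup (K ≃ₐ[k] K) :=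
    { (inferInstance : Group (K ≃ₐ[k] K)) with mul_comm := hΔab }
  obtain ⟨e⟩ := CommGroup.monoidHom_mulEquiv_of_hasEnoughRootsOfUnity (K ≃ₐ[k] K) ℂ_[p]
  have : Finite ((K ≃ₐ[k] K) →* ℂ_[p]ˣ) := Finite.of_equiv (K ≃ₐ[k] K) e.symm.toEquiv
  have : Fintype ((K ≃ₐ[k] K) →* ℂ_[p]ˣ) := Fintype.ofFinite _
  obtain ⟨s⟩ : Nonempty (H →+* ℂ_[p]) := inferInstance
  -- the claim for one character
  have main : ∀ ψ₀ : (H ≃ₐ[k] H) →* ℂ_[p]ˣ, prj ψ₀ x = 0 := by
    intro ψ₀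
    let res : (H ≃ₐ[k] H) →* (K ≃ₐ[k] K) := AlgEquiv.restrictNormalHom K
    have hres : ∀ (h : H ≃ₐ[k] H) (y : K), h (algebraMap K H y) = algebraMap K H (res h y) :=
      fun h y => (AlgEquiv.restrictNormal_commutes h K y).symm
    let ψ : ((K ≃ₐ[k] K) →* ℂ_[p]ˣ) → ((H ≃ₐ[k] H) →* ℂ_[p]ˣ) := fun ω => ψ₀ * ω.comp res
    have hψ : ∀ ω h, ((ψ ω h : ℂ_[p]ˣ) : ℂ_[p]) =
        ((ψ₀ h : ℂ_[p]ˣ) : ℂ_[p]) * ((ω (res h) : ℂ_[p]ˣ) : ℂ_[p]) := fun ω h => rfl
    let l : ((K ≃ₐ[k] K) →* ℂ_[p]ˣ) → ℂ_[p] := fun ω => logLin hL s (prj (ψ ω) x)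
    let l' : ((K ≃ₐ[k] K) →* ℂ_[p]ˣ) → ℂ_[p] :=
      fun ω => logLin hL (s.comp (g : H →+* H)) (prj (ψ ω) x)
    have hzero : ∀ ω, l ω = 0 → prj (ψ ω) x = 0 := fun ω h =>
      zero_of_one_log hpl hL (prj_inChi _ _) s h
    -- a residually trivial automorphism
    obtain ⟨n₀, hn₀, hteich⟩ := exists_teich_family (p := p)
      (Finset.univ : Finset ((K ≃ₐ[k] K) →* ℂ_[p]ˣ)) (fun ω => l' ω / l ω)
    obtain ⟨ρ, hρ1, hρ2⟩ := exists_sigma hab hKab hgk hg χ hχ
      (fun h hh y => hcen h hh g y) ⟨a0, ha0⟩ (hodd'.coprime_two_right) hpu hn₀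
    set τ := ext ρ with hτdef
    have hτ : Isom τ := ext_isom ρ
    obtain ⟨u, hu⟩ := exists_aut (K := k) (((τ.symm : ℂ_[p] ≃+* ℂ_[p]) : ℂ_[p] →+* ℂ_[p]).comp s)
      s (by
        ext y
        change τ.symm (s (algebraMap k H y)) = s (algebraMap k H y)
        have h1 := fix_k hFK hk hodd hKab hS hord hτ.symm (s.comp (algebraMap K H)) y
        rw [IsScalarTower.algebraMap_apply k K H]
        exact h1)
    obtain ⟨a1, ha1⟩ := exists_conj hgk u
    let a2 : H ≃ₐ[k] H := u * a0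
    have ha2 : ∀ y, a2 y = u (g (g y)) := by
      intro y
      change u (a0 y) = _
      rw [ha0']
    have hresa : res a1 = res a2 := by
      have h1 : res a1 = res u := by
        ext y
        apply (algebraMap K H).injective
        apply g.injective
        rw [← hres, ha1, hg, hres, hg]
        congr 1
        have h2 := congrArg (fun f : K ≃ₐ[ℚ] K => f y)
          (hKab ((res u).restrictScalars ℚ) c)
        exact h2
      have h2 : res a2 = res u := by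
        ext y
        apply (algebraMap K H).injective
        rw [← hres, ha2, hg, hg, hccx, hres]
      rw [h1, h2]
    set ν : ℂ_[p] := τ (((ψ₀ a2 : ℂ_[p]ˣ) : ℂ_[p]) / ((ψ₀ a1 : ℂ_[p]ˣ) : ℂ_[p])) with hνdef
    have hνn : ‖ν‖ = 1 := by
      rw [hνdef, hτ, norm_div, norm_chi, norm_chi, div_one]
    have hrel : ∀ ω, l ω ≠ 0 → (l' ω / l ω) * τ (l' ω / l ω) = ν := by
      intro ω hω
      have h1 := rho_rel hpl hτ hgk (hρ2 (ψ ω)) hL hu ha1 ha2 (prj_inChi (ψ ω) x)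
      change l ω * τ (((ψ ω a2 : ℂ_[p]ˣ) : ℂ_[p]) * l ω) =
        τ (((ψ ω a1 : ℂ_[p]ˣ) : ℂ_[p]) * l' ω) * l' ω at h1
      rw [hψ, hψ, hresa] at h1
      simp only [map_mul] at h1
      have hw : τ ((ω (res a2) : ℂ_[p]ˣ) : ℂ_[p]) ≠ 0 := by
        rw [Ne, map_eq_zero]
        exact Units.ne_zero _
      have hw1 : τ ((ψ₀ a1 : ℂ_[p]ˣ) : ℂ_[p]) ≠ 0 := by
        rw [Ne, map_eq_zero]
        exact Units.ne_zero _
      have hτl : τ (l ω) ≠ 0 := by rwa [Ne, map_eq_zero]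
      have h2 : τ ((ω (res a2) : ℂ_[p]ˣ) : ℂ_[p]) *
          (l ω * τ ((ψ₀ a2 : ℂ_[p]ˣ) : ℂ_[p]) * τ (l ω)) =
          τ ((ω (res a2) : ℂ_[p]ˣ) : ℂ_[p]) *
          (l' ω * τ ((ψ₀ a1 : ℂ_[p]ˣ) : ℂ_[p]) * τ (l' ω)) := by
        linear_combination h1
      have h3 := mul_left_cancel₀ hw h2
      rw [hνdef, map_div₀, map_div₀]
      field_simp
      linear_combination -h3
    -- apply the linear algebra
    have hcore := core (p := p) (Δ := (K ≃ₐ[k] K))
      (by rw [← Nat.card_eq_fintype_card, IsGalois.card_aut_eq_finrank]; exact hodd')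
      (by rw [← Nat.card_eq_fintype_card, IsGalois.card_aut_eq_finrank, hkK]; exact hp2)
      (fun δ => (s.comp (algebraMap K H)).comp (δ : K →+* K) ∉ S) l l' (by
        intro δ hδ
        rw [not_not] at hδ
        obtain ⟨h, hh⟩ := AlgEquiv.restrictNormalHom_surjective (F := k) (K₁ := K) H δ
        have h1 := sum_prj_zero hΔab ψ₀ hL h0 (s.comp (h : H →+* H)) (by
          convert hδ using 1
          ext y
          change s (h (algebraMap K H y)) = s (algebraMap K H (δ y))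
          rw [← hh, hres])
        have h2 : ∀ ω : (K ≃ₐ[k] K) →* ℂ_[p]ˣ, logLin hL (s.comp (h : H →+* H))
            (prj (ψ₀ * ω.comp (AlgEquiv.restrictNormalHom K)) x) =
            ((ψ₀ h : ℂ_[p]ˣ) : ℂ_[p]) * (((ω δ : ℂ_[p]ˣ) : ℂ_[p]) * l ω) := by
          intro ω
          rw [logLin_inChi hL (prj_inChi _ x)]
          change ((ψ ω h : ℂ_[p]ˣ) : ℂ_[p]) * l ω = _
          rw [hψ, mul_assoc]
          congr 4
        rw [Finset.sum_congr rfl (fun ω _ => h2 ω), ← Finset.mul_sum] at h1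
        exact (mul_eq_zero.1 h1).resolve_left (Units.ne_zero _)) (by
        intro δ hδ
        obtain ⟨h, hh⟩ := AlgEquiv.restrictNormalHom_surjective (F := k) (K₁ := K) H δ
        have hδ' : ((s.comp (algebraMap K H)).comp (δ : K →+* K)).comp (c₀ : K →+* K) ∈ S := by
          by_contra hcon
          exact hδ ((hSc _).2 hcon)
        have h1 := sum_prj_zero hΔab ψ₀ hL h0 ((s.comp (g : H →+* H)).comp (h : H →+* H)) (by
          convert hδ' using 1
          ext y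
          change s (g (h (algebraMap K H y))) = s (algebraMap K H (δ (c₀ y)))
          rw [hres, hg, ← hcc₀]
          congr 2
          have h3 := congrArg (fun f : K ≃ₐ[ℚ] K => f y) (hKab c (δ.restrictScalars ℚ))
          have h4 : c (δ y) = δ (c y) := h3
          rw [← h4, ← hh])
        have h2 : ∀ ω : (K ≃ₐ[k] K) →* ℂ_[p]ˣ,
            logLin hL ((s.comp (g : H →+* H)).comp (h : H →+* H))
            (prj (ψ₀ * ω.comp (AlgEquiv.restrictNormalHom K)) x) =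
            ((ψ₀ h : ℂ_[p]ˣ) : ℂ_[p]) * (((ω δ : ℂ_[p]ˣ) : ℂ_[p]) * l' ω) := by
          intro ω
          rw [logLin_inChi hL (prj_inChi _ x)]
          change ((ψ ω h : ℂ_[p]ˣ) : ℂ_[p]) * l' ω = _
          rw [hψ, mul_assoc]
          congr 4
        rw [Finset.sum_congr rfl (fun ω _ => h2 ω), ← Finset.mul_sum] at h1
        exact (mul_eq_zero.1 h1).resolve_left (Units.ne_zero _)) ν (by
        intro ω hω
        have h1 := hrel ω hω
        have h2 : ‖l' ω / l ω‖ = 1 := by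
          have h3 := congrArg norm h1
          rw [norm_mul, hτ, hνn] at h3
          nlinarith [norm_nonneg (l' ω / l ω)]
        refine ⟨h2, ?_⟩
        obtain ⟨z, hz, hz'⟩ := hteich ω (Finset.mem_univ _) h2
        have h3 : ‖τ (l' ω / l ω) - l' ω / l ω‖ < 1 := resid hρ1 ⟨z, hz, hz'⟩
        have h4 : (l' ω / l ω) ^ 2 - ν = -((l' ω / l ω) * (τ (l' ω / l ω) - l' ω / l ω)) := by
          rw [← h1]
          ring
        rw [h4, norm_neg, norm_mul, h2, one_mul]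
        exact h3) (by
        intro ω hω
        change logLin hL (s.comp (g : H →+* H)) (prj (ψ ω) x) = 0
        rw [hzero ω hω, map_zero]) 1
    have h1 := hzero 1 hcore
    have h2 : ψ 1 = ψ₀ := by
      ext h
      rw [hψ]
      simp
    rwa [h2] at h1
  have h1 := zero_of_chars (p := p) (fun a : H ≃ₐ[k] H => push (a : H →+* H) x)
    (fun ψ => main ψ)
  have h2 : push ((1 : H ≃ₐ[k] H) : H →+* H) x = x := by
    have h3 : ∀ x : UM p H, push ((1 : H ≃ₐ[k] H) : H →+* H) x = x := by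
      intro x
      induction x using TensorProduct.induction_on with
      | zero => simp
      | tmul c u =>
        rw [push_tmul]
        congr 1
      | add x y hx hy => rw [map_add, hx, hy]
    exact h3 x
  rw [← h2]
  exact h1

end

end Pool.Agent.H512.IT
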