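import Pool.Agent.H512.IT.Teich
import Pool.Graph.R_seed8.W289.SL.Emb

set_option autoImplicit false
set_option linter.unusedSectionVars false

/-!
# Determinants of matrices of roots of unity which are units at `p`
-/

namespace Pool.Agent.H512.IT

open NumberField Pool.Agent.W289.SL
open scoped Nat

variable {p : ℕ} [hp : Fact p.Prime]

lemma norm_int_one {N : ℤ} (hN : ¬ (p : ℤ) ∣ N) : ‖(N : ℂ_[p])‖ = 1 := by
  have h1 : (N : ℂ_[p]) = ((N : PadicAlgCl p) : ℂ_[p]) := by
    exact (map_intCast (algebraMap (PadicAlgCl p) ℂ_[p]) N).symm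
  have h2 : ‖(N : PadicAlgCl p)‖ = ‖(N : ℚ_[p])‖ := by
    rw [← map_intCast (algebraMap ℚ_[p] (PadicAlgCl p)) N]
    exact PadicAlgCl.norm_extends p _
  rw [h1, UniformSpace.Completion.norm_coe, h2]
  rcases lt_or_eq_of_le (Padic.norm_int_le_one (p := p) N) with h | h
  · rw [Padic.norm_intCast_lt_one_iff] at h
    exact absurd h hN
  · exact h

lemma norm_nat_one {N : ℕ} (hN : ¬ p ∣ N) : ‖(N : ℂ_[p])‖ = 1 := by
  have h1 := norm_int_one (p := p) (N := (N : ℤ)) (by exact_mod_cast hN)
  exact_mod_cast h1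

lemma norm_two_lt (hp2 : p = 2) : ‖(2 : ℂ_[p])‖ < 1 := by
  subst hp2
  have h1 : (2 : ℂ_[2]) = (((2 : ℕ) : PadicAlgCl 2) : ℂ_[2]) :=
    (map_natCast (algebraMap (PadicAlgCl 2) ℂ_[2]) 2).symm
  rw [h1, UniformSpace.Completion.norm_coe]
  exact norm_p_lt_one

/-- algebraic integers which divide an integer prime to `p` are units at `p` -/
lemma norm_one_of_dvd {E : Type} [Field E] [NumberField E] (j : E →+* ℂ_[p]) {x : 𝓞 E} {N : ℕ}
    (hN : ¬ p ∣ N) (h : x ∣ (N : 𝓞 E)) : ‖j x‖ = 1 := by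
  obtain ⟨y, hy⟩ := h
  have h1 : j x * j y = (N : ℂ_[p]) := by
    have h2 := congrArg (fun z : 𝓞 E => j z) hy
    simp only [map_natCast, map_mul] at h2
    exact h2.symm
  have h2 := congrArg norm h1
  rw [norm_mul, norm_nat_one hN] at h2
  have h3 := norm_emb_le j x
  have h4 := norm_emb_le j y
  nlinarith [norm_nonneg (j x), norm_nonneg (j y)]

/-- a nonzero algebraic integer all of whose conjugates are small compared with `p` is a unit at
`p` -/
lemma norm_one_of_small {E : Type} [Field E] [NumberField E] (j : E →+* ℂ_[p]) {x : 𝓞 E}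
    (hx : x ≠ 0) (C : ℕ) (hC : ∀ σ : E →+* ℂ, ‖σ x‖ ≤ C) (h : C ^ Module.finrank ℚ E < p) :
    ‖j x‖ = 1 := by
  have h0 : (Algebra.norm ℤ x).natAbs ≠ 0 := by
    rw [Int.natAbs_ne_zero]
    exact Algebra.norm_ne_zero_iff.2 hx
  have h1 : x ∣ (((Algebra.norm ℤ x).natAbs : ℕ) : 𝓞 E) := by
    have h2 := Ideal.absNorm_mem (Ideal.span {x})
    rw [Ideal.absNorm_span_singleton, Ideal.mem_span_singleton] at h2
    exact h2
  refine norm_one_of_dvd j ?_ h1
  intro hdvd
  have h2 := Nat.le_of_dvd (Nat.pos_of_ne_zero h0) hdvd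
  have h3 : ((Algebra.norm ℤ x).natAbs : ℝ) ≤ (C : ℝ) ^ Module.finrank ℚ E := by
    have h4 : ((Algebra.norm ℤ x : ℤ) : ℂ) = ∏ σ : E →ₐ[ℚ] ℂ, σ (x : E) := by
      rw [← Algebra.norm_eq_prod_embeddings ℚ ℂ (x : E), ← Algebra.coe_norm_int]
      simp
    have h5 : ((Algebra.norm ℤ x).natAbs : ℝ) = ‖((Algebra.norm ℤ x : ℤ) : ℂ)‖ := by
      rw [Complex.norm_intCast]
      rw [← Int.cast_abs, Int.abs_eq_natAbs, Int.cast_natCast]
    rw [h5, h4, norm_prod]
    calc ∏ σ : E →ₐ[ℚ] ℂ, ‖σ (x : E)‖ ≤ ∏ σ : E →ₐ[ℚ] ℂ, (C : ℝ) :=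
          Finset.prod_le_prod (fun _ _ => norm_nonneg _) (fun σ _ => hC (σ : E →+* ℂ))
      _ = (C : ℝ) ^ Module.finrank ℚ E := by
          rw [Finset.prod_const, Finset.card_univ, AlgHom.card]
  have h4 : (Algebra.norm ℤ x).natAbs ≤ C ^ Module.finrank ℚ E := by exact_mod_cast h3
  omega

/-- two does not divide an odd number in a ring of integers -/
lemma not_two_dvd {E : Type} [Field E] [NumberField E] {N : ℕ} (hN : Odd N) :
    ¬ (2 : 𝓞 E) ∣ (N : 𝓞 E) := by
  rintro ⟨y, hy⟩
  obtain ⟨k, rfl⟩ := hN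
  have h1 : (2 : 𝓞 E) * (y - k) = 1 := by
    have h2 : (2 : 𝓞 E) * y = 2 * k + 1 := by
      rw [← hy]
      push_cast
      ring
    rw [mul_sub, h2]
    ring
  have h2 := norm_one_of_dvd (p := 2) (E := E)
  obtain ⟨j⟩ : Nonempty (E →+* ℂ_[2]) := inferInstance
  have h3 := congrArg (fun z : 𝓞 E => j z) h1
  simp only [map_mul, map_one, map_ofNat] at h3
  have h4 := congrArg norm h3
  rw [norm_mul, norm_one] at h4
  have h5 := norm_two_lt (p := 2) rfl
  have h6 := norm_emb_le j (y - k)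
  nlinarith [norm_nonneg (j ((y - k : 𝓞 E) : E)), norm_nonneg (2 : ℂ_[2])]

lemma cyc (n : ℕ) [NeZero n] : IsCyclotomicExtension {n} ℚ (CyclotomicField n ℚ) := by
  have h := CyclotomicField.isCyclotomicExtension n ℚ
  have e : (DivisionRing.toRatAlgebra : Algebra ℚ (CyclotomicField n ℚ)) =
    CyclotomicField.algebra n ℚ := Subsingleton.elim _ _
  rw [e]
  exact h

section

variable {ι : Type} [Fintype ι] [DecidableEq ι]

/-- Let `W` be a square matrix of odd size `d` whose entries are `d`-th roots of unity and whose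
columns are orthogonal. Change the signs of some columns in some of the rows. The determinant is a
unit at `p` if `p = 2` or `p > (d!)^d`. -/
theorem det_unit_aux {E : Type} [Field E] [NumberField E]
    [IsCyclotomicExtension {Fintype.card ι} ℚ E] (hodd : Odd (Fintype.card ι))
    (hp2 : p = 2 ∨ (Fintype.card ι)! ^ Fintype.card ι < p) (W : ι → ι → ℂ_[p])
    (hW : ∀ i j, W i j ^ Fintype.card ι = 1)
    (horth : ∀ j j', j ≠ j' → ∑ i, (W i j)⁻¹ * W i j' = 0) (J : ι → Prop) [DecidablePred J]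
    (ε : ι → ℤ) (hε : ∀ j, ε j = 1 ∨ ε j = -1) :
    ‖(Matrix.of fun i j => W i j * (if J i then (ε j : ℂ_[p]) else 1)).det‖ = 1 := by
  classical
  set d := Fintype.card ι with hd
  have hd0 : 0 < d := hodd.pos
  have : NeZero d := ⟨hd0.ne'⟩
  obtain ⟨j₀⟩ : Nonempty (E →+* ℂ_[p]) := inferInstance
  have hζ : IsPrimitiveRoot (IsCyclotomicExtension.zeta (Fintype.card ι) ℚ E) d :=
    IsCyclotomicExtension.zeta_spec (Fintype.card ι) ℚ E
  let z : 𝓞 E := hζ.toInteger
  have hz : IsPrimitiveRoot z d := hζ.toInteger_isPrimitiveRoot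
  let f : 𝓞 E →+* ℂ_[p] := j₀.comp (algebraMap (𝓞 E) E)
  have hf : Function.Injective f := j₀.injective.comp RingOfIntegers.coe_injective
  have hfx : ∀ x : 𝓞 E, f x = j₀ x := fun x => rfl
  have hfz : IsPrimitiveRoot (f z) d := hz.map_of_injective hf
  have hw : ∀ i j, ∃ n : ℕ, f z ^ n = W i j := by
    intro i j
    obtain ⟨n, -, hn⟩ := hfz.eq_pow_of_pow_eq_one (hW i j)
    exact ⟨n, hn⟩
  choose n hn using hw
  let w : ι → ι → 𝓞 E := fun i j => z ^ n i j
  have hwf : ∀ i j, f (w i j) = W i j := fun i j => by rw [← hn, map_pow]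
  have hwd : ∀ i j, w i j ^ d = 1 := by
    intro i j
    rw [← pow_mul, mul_comm, pow_mul, hz.pow_eq_one, one_pow]
  have hWne : ∀ i j, W i j ≠ 0 := by
    intro i j h
    have h1 := hW i j
    rw [h, zero_pow hd0.ne'] at h1
    exact zero_ne_one h1
  let WE : Matrix ι ι (𝓞 E) := Matrix.of fun i j => w i j
  let WS : Matrix ι ι (𝓞 E) := Matrix.of fun j i => w i j ^ (d - 1)
  let ME : Matrix ι ι (𝓞 E) := Matrix.of fun i j => w i j * (if J i then (ε j : 𝓞 E) else 1)
  have hprod : WS * WE = Matrix.diagonal fun _ => (d : 𝓞 E) := by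
    apply Matrix.ext
    intro j j'
    apply hf
    rw [Matrix.mul_apply, Matrix.diagonal_apply, map_sum]
    have h1 : ∀ i, f (WS j i * WE i j') = (W i j)⁻¹ * W i j' := by
      intro i
      change f (w i j ^ (d - 1) * w i j') = _
      rw [map_mul, map_pow, hwf, hwf]
      congr 1
      symm
      apply inv_eq_of_mul_eq_one_left
      rw [← pow_succ, Nat.sub_add_cancel hd0, hW]
    rw [Finset.sum_congr rfl (fun i _ => h1 i)]
    split_ifs with h
    · subst h
      rw [Finset.sum_congr rfl (fun i _ => inv_mul_cancel₀ (hWne i j)), Finset.sum_const,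
        Finset.card_univ, map_natCast, nsmul_eq_mul, mul_one]
    · rw [horth j j' h, map_zero]
  have hdet : WS.det * WE.det = ((d ^ d : ℕ) : 𝓞 E) := by
    rw [← Matrix.det_mul, hprod, Matrix.det_diagonal, Finset.prod_const, Finset.card_univ,
      Nat.cast_pow]
  -- modulo two
  obtain ⟨t, ht⟩ : ∃ t, ME.det = WE.det + 2 * t := by
    let q := Ideal.Quotient.mk (Ideal.span {(2 : 𝓞 E)})
    have h1 : q.mapMatrix ME = q.mapMatrix WE := by
      ext i j
      change q (w i j * (if J i then (ε j : 𝓞 E) else 1)) = q (w i j)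
      rw [Ideal.Quotient.eq, Ideal.mem_span_singleton]
      split_ifs
      · rcases hε j with h | h
        · rw [h]
          simp
        · rw [h]
          refine ⟨- w i j, ?_⟩
          push_cast
          ring
      · simp
    have h2 : q ME.det = q WE.det := by rw [RingHom.map_det, RingHom.map_det, h1]
    rw [Ideal.Quotient.eq, Ideal.mem_span_singleton] at h2
    obtain ⟨t, ht⟩ := h2
    exact ⟨t, by rw [← ht]; ring⟩
  have hM : (Matrix.of fun i j => W i j * (if J i then (ε j : ℂ_[p]) else 1)).det = f ME.det := by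
    rw [RingHom.map_det]
    congr 1
    ext i j
    change _ = f (w i j * (if J i then (ε j : 𝓞 E) else 1))
    rw [map_mul, hwf, Matrix.of_apply]
    congr 1
    split_ifs
    · rw [map_intCast]
    · rw [map_one]
  rw [hM]
  rcases hp2 with hp2 | hp2
  · have h1 : ‖j₀ (WE.det : 𝓞 E)‖ = 1 := by
      apply norm_one_of_dvd j₀ (N := d ^ d)
      · intro h
        have h2 := hp.out.dvd_of_dvd_pow h
        rw [hp2] at h2
        exact (Nat.not_even_iff_odd.2 hodd) (even_iff_two_dvd.2 h2)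
      · exact ⟨WS.det, by rw [← hdet, mul_comm]⟩
    have h2 : ‖(2 : ℂ_[p]) * j₀ (t : 𝓞 E)‖ < 1 := by
      rw [norm_mul]
      have h3 := norm_two_lt hp2
      have h4 := norm_emb_le j₀ t
      nlinarith [norm_nonneg (j₀ (t : 𝓞 E)), norm_nonneg (2 : ℂ_[p])]
    have h3 : f ME.det = j₀ (WE.det : 𝓞 E) + (2 : ℂ_[p]) * j₀ (t : 𝓞 E) := by
      rw [ht, map_add, map_mul]
      rw [map_ofNat]
      rfl
    have h4 := IsUltrametricDist.norm_eq_of_add_norm_lt_max (x := f ME.det)
      (y := - j₀ (WE.det : 𝓞 E)) (by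
        have h5 : f ME.det + - j₀ (WE.det : 𝓞 E) = (2 : ℂ_[p]) * j₀ (t : 𝓞 E) := by
          rw [h3]
          ring
        rw [h5]
        refine lt_of_lt_of_le h2 ?_
        rw [norm_neg, h1]
        exact le_max_right _ _)
    rw [h4, norm_neg, h1]
  · rw [hfx]
    have hne : ME.det ≠ 0 := by
      intro h0
      rw [h0] at ht
      refine not_two_dvd (E := E) (N := d ^ d) (hodd.pow) ⟨-(WS.det * t), ?_⟩
      rw [← hdet]
      have h1 : WE.det = -(2 * t) := by
        rw [eq_neg_iff_add_eq_zero, ← ht]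
      rw [h1]
      ring
    refine norm_one_of_small j₀ hne (d !) ?_ ?_
    · intro σ
      let g : 𝓞 E →+* ℂ := σ.comp (algebraMap (𝓞 E) E)
      have h1 : σ ((ME.det : 𝓞 E) : E) = (g.mapMatrix ME).det := by
        rw [← RingHom.map_det]
        rfl
      rw [h1]
      have h2 := Matrix.det_le (A := g.mapMatrix ME) (abv := (IsAbsoluteValue.toAbsoluteValue
        (norm : ℂ → ℝ))) (x := 1) (by
          intro i j
          change ‖g (w i j * (if J i then (ε j : 𝓞 E) else 1))‖ ≤ 1
          rw [map_mul, norm_mul]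
          have h3 : ‖g (w i j)‖ = 1 := by
            have h4 : g (w i j) ^ d = 1 := by rw [← map_pow, hwd, map_one]
            have h5 := congrArg norm h4
            rw [norm_pow, norm_one] at h5
            exact (pow_eq_one_iff_of_nonneg (norm_nonneg _) hd0.ne').1 h5
          rw [h3, one_mul]
          split_ifs
          · rcases hε j with h | h
            · rw [h]; simp
            · rw [h]; simp
          · simp)
      rw [one_pow, nsmul_eq_mul, mul_one] at h2
      exact h2
    · have h1 : Module.finrank ℚ E = Nat.totient d :=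
        IsCyclotomicExtension.finrank (n := d) E (Polynomial.cyclotomic.irreducible_rat hd0)
      rw [h1]
      refine lt_of_le_of_lt ?_ hp2
      exact Nat.pow_le_pow_right (Nat.factorial_pos _) (Nat.totient_le d)

/-- Let `W` be a square matrix of odd size `d` whose entries are `d`-th roots of unity and whose
columns are orthogonal. Change the signs of some columns in some of the rows. The determinant is a
unit at `p` if `p = 2` or `p > (d!)^d`. -/
theorem det_unit (hodd : Odd (Fintype.card ι))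
    (hp2 : p = 2 ∨ (Fintype.card ι)! ^ Fintype.card ι < p) (W : ι → ι → ℂ_[p])
    (hW : ∀ i j, W i j ^ Fintype.card ι = 1)
    (horth : ∀ j j', j ≠ j' → ∑ i, (W i j)⁻¹ * W i j' = 0) (J : ι → Prop) [DecidablePred J]
    (ε : ι → ℤ) (hε : ∀ j, ε j = 1 ∨ ε j = -1) :
    ‖(Matrix.of fun i j => W i j * (if J i then (ε j : ℂ_[p]) else 1)).det‖ = 1 := by
  have : NeZero (Fintype.card ι) := ⟨hodd.pos.ne'⟩
  have := cyc (Fintype.card ι)
  exact det_unit_aux (E := CyclotomicField (Fintype.card ι) ℚ) hodd hp2 W hW horth J ε hε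

end

end Pool.Agent.H512.IT
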