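import Pool.Agent.H512.IT.Interval

set_option autoImplicit false
set_option linter.unusedSectionVars false

/-!
# Abelian extensions of a field with one infinite place (the theorem of Baker and Brumer)
-/

namespace Pool.Agent.H512.IT

open NumberField TensorProduct Pool.Agent.W289.SL Pool.Agent.W332.SL6
open Pool.Agent.W254.PA (exists_theta)

variable {p : ℕ} [hp : Fact p.Prime]

/-- separation by characters -/
lemma zero_of_chars {G : Type} [CommGroup G] [Fintype G] {V : Type} [AddCommGroup V]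
    [Module ℂ_[p] V] (f : G → V)
    (h : ∀ ψ : G →* ℂ_[p]ˣ, ∑ g : G, ((ψ g⁻¹ : ℂ_[p]ˣ) : ℂ_[p]) • f g = 0) : f 1 = 0 := by
  classical
  obtain ⟨e⟩ := CommGroup.monoidHom_mulEquiv_of_hasEnoughRootsOfUnity G ℂ_[p]
  have : Finite (G →* ℂ_[p]ˣ) := Finite.of_equiv G e.symm.toEquiv
  have : Fintype (G →* ℂ_[p]ˣ) := Fintype.ofFinite _
  have hS : ∀ g : G, g ≠ 1 → ∑ ψ : G →* ℂ_[p]ˣ, ((ψ g⁻¹ : ℂ_[p]ˣ) : ℂ_[p]) = 0 := by
    intro g hg
    obtain ⟨φ, hφ⟩ := CommGroup.exists_apply_ne_one_of_hasEnoughRootsOfUnity G ℂ_[p]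
      (a := g⁻¹) (by rwa [Ne, inv_eq_one])
    have h1 : ((φ g⁻¹ : ℂ_[p]ˣ) : ℂ_[p]) * ∑ ψ : G →* ℂ_[p]ˣ, ((ψ g⁻¹ : ℂ_[p]ˣ) : ℂ_[p]) =
        ∑ ψ : G →* ℂ_[p]ˣ, ((ψ g⁻¹ : ℂ_[p]ˣ) : ℂ_[p]) := by
      rw [Finset.mul_sum]
      rw [← Equiv.sum_comp (Equiv.mulLeft φ) (fun ψ : G →* ℂ_[p]ˣ => ((ψ g⁻¹ : ℂ_[p]ˣ) : ℂ_[p]))]
      refine Finset.sum_congr rfl fun ψ _ => ?_
      rw [Equiv.coe_mulLeft, MonoidHom.mul_apply, Units.val_mul]
    have h2 : (((φ g⁻¹ : ℂ_[p]ˣ) : ℂ_[p]) - 1) *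
        ∑ ψ : G →* ℂ_[p]ˣ, ((ψ g⁻¹ : ℂ_[p]ˣ) : ℂ_[p]) = 0 := by
      rw [sub_mul, h1, one_mul, sub_self]
    rcases mul_eq_zero.1 h2 with h3 | h3
    · exact absurd (Units.ext (sub_eq_zero.1 h3)) hφ
    · exact h3
  have h1 : ∑ g : G, (∑ ψ : G →* ℂ_[p]ˣ, ((ψ g⁻¹ : ℂ_[p]ˣ) : ℂ_[p])) • f g = 0 := by
    simp only [Finset.sum_smul]
    rw [Finset.sum_comm]
    exact Finset.sum_eq_zero fun ψ _ => h ψ
  rw [Finset.sum_eq_single (1 : G)] at h1
  · have h2 : ∑ ψ : G →* ℂ_[p]ˣ, ((ψ (1 : G)⁻¹ : ℂ_[p]ˣ) : ℂ_[p]) =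
        (Fintype.card (G →* ℂ_[p]ˣ) : ℂ_[p]) := by
      simp
    rw [h2] at h1
    have h3 : (Fintype.card (G →* ℂ_[p]ˣ) : ℂ_[p]) ≠ 0 := by
      exact_mod_cast Fintype.card_ne_zero
    exact (smul_eq_zero.1 h1).resolve_left h3
  · intro g _ hg
    rw [hS g hg, zero_smul]
  · intro h
    exact absurd (Finset.mem_univ _) h

section

variable {k H : Type} [Field k] [NumberField k] [Field H] [NumberField H] [Algebra k H]
  [FiniteDimensional k H] [IsGalois k H]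

/-- the projection of a vector to the `ψ`-part, up to a constant -/
noncomputable def prj (ψ : (H ≃ₐ[k] H) →* ℂ_[p]ˣ) (x : UM p H) : UM p H :=
  ∑ g : H ≃ₐ[k] H, ((ψ g⁻¹ : ℂ_[p]ˣ) : ℂ_[p]) • push (g : H →+* H) x

lemma prj_inChi (ψ : (H ≃ₐ[k] H) →* ℂ_[p]ˣ) (x : UM p H) : InChi ψ (prj ψ x) := by
  intro τ
  rw [actLin_eq]
  unfold prj
  rw [map_sum, Finset.smul_sum]
  rw [← Equiv.sum_comp (Equiv.mulLeft τ⁻¹)]
  refine Finset.sum_congr rfl fun g _ => ?_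
  rw [map_smul, push_push, Equiv.coe_mulLeft, smul_smul]
  have h1 : ((τ : H →+* H).comp ((τ⁻¹ * g : H ≃ₐ[k] H) : H →+* H)) = (g : H →+* H) := by
    ext x
    change τ ((τ⁻¹ * g) x) = g x
    rw [← AlgEquiv.mul_apply, mul_inv_cancel_left]
  rw [h1]
  congr 1
  rw [mul_inv_rev, inv_inv, map_mul, Units.val_mul, mul_comm]

lemma prj_tmul (ψ : (H ≃ₐ[k] H) →* ℂ_[p]ˣ) (c : ℂ_[p]) (u : Additive (𝓞 H)ˣ) :
    prj ψ (c ⊗ₜ u) = c • xu ψ u := by
  unfold prj xu
  rw [Finset.smul_sum]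
  refine Finset.sum_congr rfl fun g _ => ?_
  have h1 : (c ⊗ₜ[ℤ] uMap (g : H →+* H) u : UM p H) =
      c • ((1 : ℂ_[p]) ⊗ₜ[ℤ] uMap (g : H →+* H) u) := by
    rw [smul_tmul', smul_eq_mul, mul_one]
  rw [push_tmul, h1, smul_comm]

lemma prj_add (ψ : (H ≃ₐ[k] H) →* ℂ_[p]ˣ) (x y : UM p H) :
    prj ψ (x + y) = prj ψ x + prj ψ y := by
  unfold prj
  rw [← Finset.sum_add_distrib]
  refine Finset.sum_congr rfl fun g _ => ?_
  rw [map_add, smul_add]

/-- if all the algebraic vectors `xu ψ u` vanish then the `ψ`-part is zero -/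
lemma prj_eq_zero {ψ : (H ≃ₐ[k] H) →* ℂ_[p]ˣ} (h : ∀ u, xu ψ u = 0) (x : UM p H) :
    prj ψ x = 0 := by
  induction x using TensorProduct.induction_on with
  | zero =>
    unfold prj
    simp
  | tmul c u => rw [prj_tmul, h, smul_zero]
  | add x y hx hy => rw [prj_add, hx, hy, add_zero]

/-- `prj` is the multiplication with the order on the `ψ`-part -/
lemma prj_self {ψ : (H ≃ₐ[k] H) →* ℂ_[p]ˣ} {x : UM p H} (hx : InChi ψ x) :
    prj ψ x = (Fintype.card (H ≃ₐ[k] H) : ℂ_[p]) • x := by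
  unfold prj
  have h1 : ∀ g : H ≃ₐ[k] H, ((ψ g⁻¹ : ℂ_[p]ˣ) : ℂ_[p]) • push (g : H →+* H) x = x := by
    intro g
    rw [← actLin_eq, hx g, smul_smul, ← Units.val_mul, ← map_mul, inv_mul_cancel, map_one,
      Units.val_one, one_smul]
  rw [Finset.sum_congr rfl (fun g _ => h1 g), Finset.sum_const, Finset.card_univ,
    Nat.cast_smul_eq_nsmul]

/-- over a field with one infinite place an element of the `ψ`-part is determined by one
logarithm -/
lemma zero_of_one_log (hpl : ∀ w w' : InfinitePlace k, w = w')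
    {ψ : (H ≃ₐ[k] H) →* ℂ_[p]ˣ} {L : ℂ_[p] → ℂ_[p]} (hL : IsIwasawaLog p L) {y : UM p H}
    (hy : InChi ψ y) (σ : H →+* ℂ_[p]) (h : logLin hL σ y = 0) : y = 0 := by
  by_contra hy0
  obtain ⟨θ⟩ := exists_theta p
  -- an algebraic vector
  obtain ⟨u, hu⟩ : ∃ u, xu ψ u ≠ 0 := by
    by_contra hcon
    push Not at hcon
    have h1 := prj_eq_zero hcon y
    rw [prj_self hy] at h1
    rcases smul_eq_zero.1 h1 with h2 | h2
    · exact absurd h2 (by exact_mod_cast Fintype.card_ne_zero)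
    · exact hy0 h2
  obtain ⟨s⟩ : Nonempty (H →+* ℂ) := inferInstance
  have hz : ∀ x : UM p H, InChi ψ x → lam θ s x = 0 → x = 0 := by
    intro x hx hx0
    apply eq_zero_of_lam θ
    intro t
    exact lam_zero_of_place θ hx t s (hpl _ _) hx0
  have hlu : lam θ s (xu ψ u) ≠ 0 := fun h1 => hu (hz _ (xu_inChi ψ u) h1)
  set c := lam θ s y / lam θ s (xu ψ u) with hc
  have h2 : y = c • xu ψ u := by
    have h3 : y - c • xu ψ u = 0 := by
      apply hz _ (hy.sub ((xu_inChi ψ u).smul c))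
      rw [map_sub, map_smul, smul_eq_mul, hc, div_mul_cancel₀ _ hlu, sub_self]
    exact sub_eq_zero.1 h3
  have hc0 : c ≠ 0 := by
    intro h3
    rw [h3, zero_smul] at h2
    exact hy0 h2
  rw [h2, map_smul, smul_eq_mul] at h
  have h3 := (mul_eq_zero.1 h).resolve_left hc0
  exact hu (eq_zero_of_log hL σ (xu_mem_AU ψ u) h3)

/-- **Baker and Brumer.** Let `H / k` be abelian, where `k` has one infinite place. If the
logarithms of `x` vanish for all embeddings above one embedding of `k`, then `x = 0`. -/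
theorem brumer_abelian (hpl : ∀ w w' : InfinitePlace k, w = w')
    (hab : ∀ a b : H ≃ₐ[k] H, a * b = b * a) {L : ℂ_[p] → ℂ_[p]} (hL : IsIwasawaLog p L)
    {x : UM p H} (φ : k →+* ℂ_[p])
    (h : ∀ σ : H →+* ℂ_[p], σ.comp (algebraMap k H) = φ → logLin hL σ x = 0) : x = 0 := by
  classical
  let : CommGroup (H ≃ₐ[k] H) :=
    { (inferInstance : Group (H ≃ₐ[k] H)) with mul_comm := hab }
  obtain ⟨σ, hσ⟩ := exists_ext (H := H) φ
  have h1 := zero_of_chars (p := p) (fun g : H ≃ₐ[k] H => push (g : H →+* H) x) (by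
    intro ψ
    have h2 : prj ψ x = 0 := by
      apply zero_of_one_log hpl hL (prj_inChi ψ x) σ
      unfold prj
      rw [map_sum]
      apply Finset.sum_eq_zero
      intro g _
      rw [map_smul, logLin_push, h, smul_zero]
      rw [RingHom.comp_assoc, ← hσ]
      congr 1
      ext y
      exact g.commutes y
    exact h2)
  have h2 : push ((1 : H ≃ₐ[k] H) : H →+* H) x = x := by
    have h3 : ∀ x : UM p H, push ((1 : H ≃ₐ[k] H) : H →+* H) x = x := by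
      intro x
      induction x using TensorProduct.induction_on with
      | zero => simp
      | tmul c u =>
        rw [push_tmul]
        congr 1
      | add x y hx hy => rw [map_add, hx, hy]
    exact h3 x
  rw [← h2]
  exact h1

end

end Pool.Agent.H512.IT
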