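import Pool.Agent.H512.IT.Rho

set_option autoImplicit false
set_option linter.unusedSectionVars false

/-!
# The linear algebra behind the theorem on all CM types
-/

namespace Pool.Agent.H512.IT

open scoped Nat

variable {p : ℕ} [hp : Fact p.Prime]

section

variable {Δ : Type} [CommGroup Δ] [Fintype Δ] [DecidableEq Δ] [Fintype (Δ →* ℂ_[p]ˣ)]

/-- Let `l, l'` be functions on the characters of a commutative group of odd order `d`, such that
the squares of the quotients `l' / l` are congruent modulo the maximal ideal. If the Fourier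
transform of `l` vanishes outside `J` and the Fourier transform of `l'` vanishes on `J`, then
`l = 0`. -/
theorem core (hodd : Odd (Fintype.card Δ))
    (hp2 : p = 2 ∨ (Fintype.card Δ)! ^ Fintype.card Δ < p) (J : Δ → Prop)
    (l l' : (Δ →* ℂ_[p]ˣ) → ℂ_[p])
    (h1 : ∀ δ, ¬ J δ → ∑ ω : Δ →* ℂ_[p]ˣ, ((ω δ : ℂ_[p]ˣ) : ℂ_[p]) * l ω = 0)
    (h2 : ∀ δ, J δ → ∑ ω : Δ →* ℂ_[p]ˣ, ((ω δ : ℂ_[p]ˣ) : ℂ_[p]) * l' ω = 0)
    (ν : ℂ_[p]) (hν : ∀ ω, l ω ≠ 0 → ‖l' ω / l ω‖ = 1 ∧ ‖(l' ω / l ω) ^ 2 - ν‖ < 1)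
    (h0 : ∀ ω, l ω = 0 → l' ω = 0) (ω : Δ →* ℂ_[p]ˣ) : l ω = 0 := by
  classical
  by_contra hne
  obtain ⟨e'⟩ := CommGroup.monoidHom_mulEquiv_of_hasEnoughRootsOfUnity Δ ℂ_[p]
  let e : Δ ≃ (Δ →* ℂ_[p]ˣ) := e'.symm.toEquiv
  set ρ₁ := l' ω / l ω with hρ₁
  obtain ⟨hb, hb2⟩ := hν ω hne
  have hρ0 : ρ₁ ≠ 0 := by
    intro h
    rw [← hρ₁, h] at hb
    simp at hb
  have hsign : ∀ ω', ∃ ε : ℤ, (ε = 1 ∨ ε = -1) ∧
      ∃ R : ℂ_[p], R * l ω' = ρ₁⁻¹ * l' ω' ∧ ‖R‖ ≤ 1 ∧ ‖R - (ε : ℂ_[p])‖ < 1 := by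
    intro ω'
    by_cases h : l ω' = 0
    · exact ⟨1, Or.inl rfl, 1, by rw [h, h0 ω' h]; simp, by simp, by simp⟩
    · obtain ⟨ha, ha2⟩ := hν ω' h
      obtain ⟨ε, hε, hε2⟩ := sign_of_sq (a := l' ω' / l ω') (b := ρ₁) ha hb (by
        have h3 : (l' ω' / l ω') ^ 2 - ρ₁ ^ 2 = ((l' ω' / l ω') ^ 2 - ν) - (ρ₁ ^ 2 - ν) := by ring
        rw [h3]
        exact lt_of_le_of_lt (nsub_le_max _ _) (max_lt ha2 hb2))
      refine ⟨ε, hε, (l' ω' / l ω') / ρ₁, ?_, ?_, hε2⟩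
      · field_simp
      · rw [norm_div, ha, hb, div_one]
  choose ε hε R hR hR1 hR2 using hsign
  let W : Δ → Δ → ℂ_[p] := fun δ j => ((e j δ : ℂ_[p]ˣ) : ℂ_[p])
  have hW : ∀ i j, W i j ^ Fintype.card Δ = 1 := by
    intro i j
    change ((e j i : ℂ_[p]ˣ) : ℂ_[p]) ^ _ = 1
    rw [← Units.val_pow_eq_pow_val, ← map_pow, pow_card_eq_one, map_one, Units.val_one]
  have hWn : ∀ i j, ‖W i j‖ = 1 := by
    intro i j
    have h3 := congrArg norm (hW i j)
    rw [norm_pow, norm_one] at h3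
    exact (pow_eq_one_iff_of_nonneg (norm_nonneg _) hodd.pos.ne').1 h3
  have horth : ∀ j j', j ≠ j' → ∑ i, (W i j)⁻¹ * W i j' = 0 := by
    intro j j' hjj
    let f : Δ →* ℂ_[p] := (Units.coeHom ℂ_[p]).comp ((e j)⁻¹ * e j')
    have hf : f ≠ 1 := by
      intro h
      apply hjj
      apply e.injective
      ext i
      have h3 := congrArg (fun f : Δ →* ℂ_[p] => f i) h
      have h4 : ((e j i : ℂ_[p]ˣ) : ℂ_[p])⁻¹ * ((e j' i : ℂ_[p]ˣ) : ℂ_[p]) = 1 := by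
        have h5 : f i = ((e j i : ℂ_[p]ˣ) : ℂ_[p])⁻¹ * ((e j' i : ℂ_[p]ˣ) : ℂ_[p]) := by
          simp [f]
        rw [← h5]
        exact h3
      have h6 : ((e j i : ℂ_[p]ˣ) : ℂ_[p]) ≠ 0 := Units.ne_zero _
      field_simp at h4
      exact h4.symm
    have h3 := sum_hom_units_eq_zero f hf
    rw [← h3]
    refine Finset.sum_congr rfl fun i _ => ?_
    simp [f, W]
  have hdet := det_unit hodd hp2 W hW horth J (fun j => ε (e j)) (fun j => hε (e j))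
  set M₀ : Matrix Δ Δ ℂ_[p] := Matrix.of fun i j => W i j * (if J i then (ε (e j) : ℂ_[p]) else 1)
    with hM₀
  let M : Matrix Δ Δ ℂ_[p] := Matrix.of fun i j => W i j * (if J i then R (e j) else 1)
  have hεn : ∀ ω', ‖(ε ω' : ℂ_[p])‖ ≤ 1 := by
    intro ω'
    rcases hε ω' with h | h
    · rw [h]; simp
    · rw [h]; simp
  have hMdet : M.det ≠ 0 := by
    apply det_close M M₀ _ _ _ hdet
    · intro i j
      change ‖W i j * (if J i then R (e j) else 1)‖ ≤ 1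
      rw [norm_mul, hWn, one_mul]
      split_ifs
      · exact hR1 _
      · simp
    · intro i j
      change ‖W i j * (if J i then (ε (e j) : ℂ_[p]) else 1)‖ ≤ 1
      rw [norm_mul, hWn, one_mul]
      split_ifs
      · exact hεn _
      · simp
    · intro i j
      change ‖W i j * (if J i then R (e j) else 1) -
        W i j * (if J i then (ε (e j) : ℂ_[p]) else 1)‖ < 1
      rw [← mul_sub, norm_mul, hWn, one_mul]
      split_ifs
      · exact hR2 _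
      · simp
  have hv : M.mulVec (fun j => l (e j)) = 0 := by
    funext i
    change ∑ j, (W i j * (if J i then R (e j) else 1)) * l (e j) = 0
    by_cases hi : J i
    · have h3 : ∀ j, (W i j * (if J i then R (e j) else 1)) * l (e j) =
          ρ₁⁻¹ * (((e j i : ℂ_[p]ˣ) : ℂ_[p]) * l' (e j)) := by
        intro j
        rw [if_pos hi, mul_assoc, hR]
        change ((e j i : ℂ_[p]ˣ) : ℂ_[p]) * _ = _
        ring
      rw [Finset.sum_congr rfl (fun j _ => h3 j), ← Finset.mul_sum,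
        Equiv.sum_comp e (fun ω' : Δ →* ℂ_[p]ˣ => ((ω' i : ℂ_[p]ˣ) : ℂ_[p]) * l' ω'), h2 i hi,
        mul_zero]
    · have h3 : ∀ j, (W i j * (if J i then R (e j) else 1)) * l (e j) =
          (((e j i : ℂ_[p]ˣ) : ℂ_[p]) * l (e j)) := by
        intro j
        rw [if_neg hi, mul_one]
      rw [Finset.sum_congr rfl (fun j _ => h3 j),
        Equiv.sum_comp e (fun ω' : Δ →* ℂ_[p]ˣ => ((ω' i : ℂ_[p]ˣ) : ℂ_[p]) * l ω'), h1 i hi]
  have h3 := Matrix.eq_zero_of_mulVec_eq_zero hMdet hv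
  have h4 := congrFun h3 (e.symm ω)
  simp only [Equiv.apply_symm_apply, Pi.zero_apply] at h4
  exact hne h4

end

end Pool.Agent.H512.IT
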