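import Mathlib

set_option autoImplicit false
set_option linter.unusedSectionVars false

/-!
# Roots of unity in the algebraic closure of `ℚ_p`: the Frobenius
-/

namespace Pool.Agent.H512.IT

open Polynomial

variable {p : ℕ} [hp : Fact p.Prime]


lemma norm_natCast_one {n : ℕ} (hn : ¬ p ∣ n) : ‖(n : PadicAlgCl p)‖ = 1 := by
  have h1 : ‖(n : PadicAlgCl p)‖ = ‖(n : ℚ_[p])‖ := by
    rw [← map_natCast (algebraMap ℚ_[p] (PadicAlgCl p)) n]
    exact PadicAlgCl.norm_extends p _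
  rw [h1]
  rcases lt_or_eq_of_le (Padic.norm_int_le_one (p := p) (n : ℤ)) with h | h
  · rw [Padic.norm_intCast_lt_one_iff] at h
    exact absurd (by exact_mod_cast h) hn
  · exact_mod_cast h

lemma norm_natCast_le_one (n : ℕ) : ‖(n : PadicAlgCl p)‖ ≤ 1 := by
  have h1 : ‖(n : PadicAlgCl p)‖ = ‖(n : ℚ_[p])‖ := by
    rw [← map_natCast (algebraMap ℚ_[p] (PadicAlgCl p)) n]
    exact PadicAlgCl.norm_extends p _
  rw [h1]
  exact_mod_cast Padic.norm_int_le_one (p := p) (n : ℤ)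

lemma norm_root {n : ℕ} (hn : n ≠ 0) {z : PadicAlgCl p} (hz : z ^ n = 1) : ‖z‖ = 1 := by
  have h1 := congrArg norm hz
  rw [norm_pow, norm_one] at h1
  exact (pow_eq_one_iff_of_nonneg (norm_nonneg _) hn).1 h1

/-- the subring of the integral elements -/
def intg (p : ℕ) [Fact p.Prime] : Subring (PadicAlgCl p) where
  carrier := {x | ‖x‖ ≤ 1}
  mul_mem' := by
    intro a b ha hb
    simp only [Set.mem_ofPred_eq] at *
    rw [norm_mul]
    nlinarith [norm_nonneg a, norm_nonneg b]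
  one_mem' := by simp
  add_mem' := by
    intro a b ha hb
    simp only [Set.mem_ofPred_eq] at *
    exact (IsUltrametricDist.norm_add_le_max _ _).trans (max_le ha hb)
  zero_mem' := by simp
  neg_mem' := by
    intro a ha
    simpa using ha

lemma mem_intg {x : PadicAlgCl p} : x ∈ intg p ↔ ‖x‖ ≤ 1 := Iff.rfl

lemma norm_one_sub_pow_le {z : PadicAlgCl p} (hz : ‖z‖ ≤ 1) (i : ℕ) :
    ‖1 - z ^ i‖ ≤ ‖1 - z‖ := by
  have h1 : 1 - z ^ i = (1 - z) * ∑ k ∈ Finset.range i, z ^ k := by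
    rw [mul_neg_geom_sum]
  rw [h1, norm_mul]
  have h2 : ‖∑ k ∈ Finset.range i, z ^ k‖ ≤ 1 := by
    rw [← mem_intg]
    exact Subring.sum_mem _ fun k _ => Subring.pow_mem _ (mem_intg.2 hz) k
  nlinarith [norm_nonneg (1 - z)]

lemma norm_one_sub {n : ℕ} (hn : ¬ p ∣ n) {z : PadicAlgCl p} (hz : z ^ n = 1) (h1 : z ≠ 1) :
    ‖1 - z‖ = 1 := by
  have hn0 : n ≠ 0 := by rintro rfl; exact hn (dvd_zero _)
  have hz1 : ‖z‖ = 1 := norm_root hn0 hz
  apply le_antisymm
  · exact (mem_intg (p := p)).1 (Subring.sub_mem _ (Subring.one_mem _) (mem_intg.2 hz1.le))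
  · have h2 : (n : PadicAlgCl p) = ∑ i ∈ Finset.range n, (1 - z ^ i) := by
      rw [Finset.sum_sub_distrib]
      have h3 : (∑ i ∈ Finset.range n, z ^ i) = 0 := by
        have h4 : (1 - z) * ∑ k ∈ Finset.range n, z ^ k = 0 := by
          rw [mul_neg_geom_sum, hz, sub_self]
        exact (mul_eq_zero.1 h4).resolve_left (sub_ne_zero.2 (Ne.symm h1))
      rw [h3]
      simp
    rw [← norm_natCast_one hn, h2]
    apply IsUltrametricDist.norm_sum_le_of_forall_le_of_nonneg (norm_nonneg _)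
    intro i _
    exact norm_one_sub_pow_le hz1.le i

lemma norm_sub_of_ne {n : ℕ} (hn : ¬ p ∣ n) {z w : PadicAlgCl p} (hz : z ^ n = 1) (hw : w ^ n = 1)
    (h : z ≠ w) : ‖z - w‖ = 1 := by
  have hn0 : n ≠ 0 := by rintro rfl; exact hn (dvd_zero _)
  have hz1 : ‖z‖ = 1 := norm_root hn0 hz
  have hz0 : z ≠ 0 := by
    rintro rfl
    simp at hz1
  have h1 : z - w = z * (1 - w / z) := by field_simp
  rw [h1, norm_mul, hz1, one_mul]
  apply norm_one_sub hn
  · rw [div_pow, hw, hz, div_one]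
  · intro h2
    rw [div_eq_one_iff_eq hz0] at h2
    exact h h2.symm

lemma isIntegral_root {n : ℕ} (hn : n ≠ 0) {z : PadicAlgCl p} (hz : z ^ n = 1) (R : Type)
    [CommRing R] [Algebra R (PadicAlgCl p)] : IsIntegral R z :=
  IsIntegral.of_pow (Nat.pos_of_ne_zero hn) (by rw [hz]; exact isIntegral_one)

lemma norm_prod_map_one (s : Multiset (PadicAlgCl p)) (f : PadicAlgCl p → PadicAlgCl p)
    (h : ∀ a ∈ s, ‖f a‖ = 1) : ‖(s.map f).prod‖ = 1 := by
  induction s using Multiset.induction_on with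
  | empty => simp
  | cons a s ih =>
    rw [Multiset.map_cons, Multiset.prod_cons, norm_mul, h a (Multiset.mem_cons_self _ _),
      ih (fun b hb => h b (Multiset.mem_cons_of_mem hb)), mul_one]

/-- the Frobenius: `ζ` and `ζ ^ p` are conjugate over `ℚ_p`, if the order of `ζ` is prime to `p` -/
lemma conj_frob {n : ℕ} (hn : ¬ p ∣ n) {z : PadicAlgCl p} (hz : z ^ n = 1) :
    IsConjRoot ℚ_[p] z (z ^ p) := by
  have hn0 : n ≠ 0 := by rintro rfl; exact hn (dvd_zero _)
  have hzQ : IsIntegral ℚ_[p] z := isIntegral_root hn0 hz _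
  have hzZ : IsIntegral ℤ_[p] z := isIntegral_root hn0 hz _
  rw [isConjRoot_iff_aeval_eq_zero hzQ]
  by_contra hcon
  set f := minpoly ℚ_[p] z with hf
  set f0 := minpoly ℤ_[p] z with hf0
  have hff : f = f0.map (algebraMap ℤ_[p] ℚ_[p]) :=
    minpoly.isIntegrallyClosed_eq_field_fractions' ℚ_[p] hzZ
  -- the value has norm one
  have hdvd : f ∣ X ^ n - 1 := by
    apply minpoly.dvd
    rw [map_sub, map_pow, aeval_X, map_one, hz, sub_self]
  have hval1 : ‖aeval (z ^ p) f‖ = 1 := by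
    have hsp := IsAlgClosed.splits (f.map (algebraMap ℚ_[p] (PadicAlgCl p)))
    have hmon : (f.map (algebraMap ℚ_[p] (PadicAlgCl p))).Monic := (minpoly.monic hzQ).map _
    have h1 : aeval (z ^ p) f = ((f.map (algebraMap ℚ_[p] (PadicAlgCl p))).roots.map
        fun a => z ^ p - a).prod := by
      rw [aeval_def, ← eval_map, hsp.eval_eq_prod_roots_of_monic hmon]
    rw [h1]
    apply norm_prod_map_one
    intro a ha
    rw [mem_roots'] at ha
    have ha2 : aeval a f = 0 := by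
      rw [aeval_def, ← eval_map]; exact ha.2
    have ha3 : a ^ n = 1 := by
      obtain ⟨q, hq⟩ := hdvd
      have h2 := congrArg (aeval a) hq
      rw [map_mul, ha2, zero_mul, map_sub, map_pow, aeval_X, map_one, sub_eq_zero] at h2
      exact h2
    apply norm_sub_of_ne hn
    · rw [← pow_mul, mul_comm, pow_mul, hz, one_pow]
    · exact ha3
    · rintro rfl
      exact hcon ha2
  -- the value is small
  have hval2 : ‖aeval (z ^ p) f‖ < 1 := by
    have hz1 : ‖z‖ = 1 := norm_root hn0 hz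
    have h1 : ∀ i, ‖(expand ℤ_[p] p f0 - f0 ^ p).coeff i‖ ≤ (p : ℝ)⁻¹ := by
      intro i
      have h2 : (expand ℤ_[p] p f0 - f0 ^ p).map (PadicInt.toZMod (p := p)) = 0 := by
        rw [Polynomial.map_sub, Polynomial.map_pow, map_expand, ZMod.expand_card, sub_self]
      have h3 : PadicInt.toZMod ((expand ℤ_[p] p f0 - f0 ^ p).coeff i) = 0 := by
        rw [← coeff_map, h2, coeff_zero]
      rw [← RingHom.mem_ker, PadicInt.ker_toZMod, PadicInt.maximalIdeal_eq_span_p,
        Ideal.mem_span_singleton] at h3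
      have h4 := (PadicInt.norm_le_pow_iff_mem_span_pow
        ((expand ℤ_[p] p f0 - f0 ^ p).coeff i) 1).2 (by
          rw [pow_one, Ideal.mem_span_singleton]; exact h3)
      simpa using h4
    have h5 : aeval (z ^ p) f = aeval z (expand ℤ_[p] p f0 - f0 ^ p) := by
      rw [hff, map_sub, map_pow, expand_aeval, minpoly.aeval, zero_pow hp.out.ne_zero, sub_zero,
        aeval_map_algebraMap]
    rw [h5, aeval_eq_sum_range]
    have hpp : (0 : ℝ) < p := by exact_mod_cast hp.out.pos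
    have hp1 : (1 : ℝ) < p := by exact_mod_cast hp.out.one_lt
    refine lt_of_le_of_lt (IsUltrametricDist.norm_sum_le_of_forall_le_of_nonneg
      (C := (p : ℝ)⁻¹) (by positivity) ?_) (inv_lt_one_of_one_lt₀ hp1)
    intro i _
    rw [Algebra.smul_def, norm_mul, norm_pow, hz1, one_pow, mul_one]
    have h6 : ‖algebraMap ℤ_[p] (PadicAlgCl p) ((expand ℤ_[p] p f0 - f0 ^ p).coeff i)‖ =
        ‖(expand ℤ_[p] p f0 - f0 ^ p).coeff i‖ := by
      rw [IsScalarTower.algebraMap_apply ℤ_[p] ℚ_[p] (PadicAlgCl p)]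
      exact (PadicAlgCl.norm_extends p _).trans (PadicInt.norm_def).symm
    rw [h6]
    exact h1 i
  rw [hval1] at hval2
  exact lt_irrefl _ hval2

/-- the powers of the Frobenius -/
lemma exists_frob {n : ℕ} (hn : ¬ p ∣ n) {z : PadicAlgCl p} (hz : z ^ n = 1) (j : ℕ) :
    ∃ σ : PadicAlgCl p ≃ₐ[ℚ_[p]] PadicAlgCl p, σ z = z ^ p ^ j := by
  induction j with
  | zero => exact ⟨1, by simp⟩
  | succ j ih =>
    obtain ⟨σ, hσ⟩ := ih
    obtain ⟨ρ, hρ⟩ := (conj_frob hn hz).symm.exists_algEquiv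
    refine ⟨σ * ρ, ?_⟩
    rw [AlgEquiv.mul_apply, hρ, map_pow, hσ, ← pow_mul, pow_succ]

end Pool.Agent.H512.IT
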