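import Pool.Agent.H512.IT.Tau

set_option autoImplicit false
set_option linter.unusedSectionVars false

/-!
# Interval types: the kernel is the Leopoldt kernel
-/

namespace Pool.Agent.H512.IT

open NumberField TensorProduct Pool.Agent.W289.SL Pool.Agent.W332.SL6

variable {p : ℕ} [hp : Fact p.Prime]

section defs

variable {K : Type} [Field K]

/-- `S` contains with an embedding all embeddings which induce the same place of `K` -/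
def Ordinary (S : Set (K →+* ℂ_[p])) : Prop :=
  ∀ σ ∈ S, ∀ σ' : K →+* ℂ_[p], (∀ x, ‖σ' x‖ = ‖σ x‖) → σ' ∈ S

/-- `S` consists of the embeddings `σ₀, σ₀ ∘ γ, …, σ₀ ∘ γ^(d-1)` -/
def IsInterval [CharZero K] (γ : K ≃ₐ[ℚ] K) (d : ℕ) (S : Set (K →+* ℂ_[p])) : Prop :=
  ∃ σ₀ : K →+* ℂ_[p], ∀ σ : K →+* ℂ_[p], σ ∈ S ↔
    ∃ i < d, ∀ x, σ x = σ₀ ((γ ^ i) x)

end defs

section main

variable {K H : Type} [Field K] [NumberField K] [Field H] [NumberField H] [Algebra K H]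
  [FiniteDimensional K H] [IsGalois K H]

/-- two embeddings of a Galois extension of `ℚ` differ by an automorphism -/
lemma exists_autQ [IsGalois ℚ K] (σ σ₀ : K →+* ℂ_[p]) :
    ∃ δ : K ≃ₐ[ℚ] K, ∀ x, σ x = σ₀ (δ x) := by
  obtain ⟨δ, hδ⟩ := exists_aut (K := ℚ) σ σ₀ (Subsingleton.elim _ _)
  exact ⟨δ, fun x => RingHom.congr_fun hδ x⟩

lemma exists_powQ [IsGalois ℚ K] {γ : K ≃ₐ[ℚ] K} (hγ : ∀ δ : K ≃ₐ[ℚ] K, δ ∈ Subgroup.zpowers γ)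
    (σ σ₀ : K →+* ℂ_[p]) : ∃ m < orderOf γ, ∀ x, σ x = σ₀ ((γ ^ m) x) := by
  classical
  obtain ⟨δ, hδ⟩ := exists_autQ σ σ₀
  have h1 := hγ δ
  rw [← mem_powers_iff_mem_zpowers] at h1
  obtain ⟨m, hm, hm'⟩ := (mem_powers_iff_mem_range_orderOf).1 h1 |> Finset.mem_image.1
  refine ⟨m, Finset.mem_range.1 hm, fun x => ?_⟩
  rw [hδ, hm']

lemma orderOf_gen [IsGalois ℚ K] {γ : K ≃ₐ[ℚ] K}
    (hγ : ∀ δ : K ≃ₐ[ℚ] K, δ ∈ Subgroup.zpowers γ) : orderOf γ = Module.finrank ℚ K := by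
  rw [← IsGalois.card_aut_eq_finrank, orderOf_eq_card_of_forall_mem_zpowers hγ]

/-- powers of a generator are determined by the embedding -/
lemma pow_inj {γ : K ≃ₐ[ℚ] K} {σ₀ : K →+* ℂ_[p]} {i j : ℕ}
    (hi : i < orderOf γ) (hj : j < orderOf γ) (h : ∀ x, σ₀ ((γ ^ i) x) = σ₀ ((γ ^ j) x)) :
    i = j := by
  apply pow_injOn_Iio_orderOf (Set.mem_Iio.2 hi) (Set.mem_Iio.2 hj)
  ext x
  exact σ₀.injective (h x)

/-- for an ordinary interval type, isometric automorphisms of `ℂ_p` act trivially on the image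
of `K` -/
lemma fix_of_ordinary [IsGalois ℚ K] {γ : K ≃ₐ[ℚ] K}
    (hγ : ∀ δ : K ≃ₐ[ℚ] K, δ ∈ Subgroup.zpowers γ) {d : ℕ} (hd : 0 < d)
    (hd2 : d < Module.finrank ℚ K) {S : Set (K →+* ℂ_[p])} (hS : Ordinary S) {σ₀ : K →+* ℂ_[p]}
    (hS₀ : ∀ σ : K →+* ℂ_[p], σ ∈ S ↔ ∃ i < d, ∀ x, σ x = σ₀ ((γ ^ i) x))
    {τ : ℂ_[p] ≃+* ℂ_[p]} (hτ : Isom τ) (x : K) : τ (σ₀ x) = σ₀ x := by
  rw [← orderOf_gen hγ] at hd2
  obtain ⟨m, hm, hm'⟩ := exists_powQ hγ ((τ : ℂ_[p] →+* ℂ_[p]).comp σ₀) σ₀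
  have hm'' : ∀ x, τ (σ₀ x) = σ₀ ((γ ^ m) x) := hm'
  have h0 : σ₀ ∈ S := (hS₀ _).2 ⟨0, hd, fun x => rfl⟩
  have h1 : (τ : ℂ_[p] →+* ℂ_[p]).comp σ₀ ∈ S := hS σ₀ h0 _ (fun x => hτ _)
  obtain ⟨i, hi, hi'⟩ := (hS₀ _).1 h1
  have hmi : m = i := pow_inj hm (by omega) (fun x => by rw [← hm', hi'])
  have hm0 : m = 0 := by
    by_contra hne
    let σ₁ : K →+* ℂ_[p] := σ₀.comp ((γ ^ (d - m) : K ≃ₐ[ℚ] K) : K →+* K)
    have h2 : σ₁ ∈ S := (hS₀ _).2 ⟨d - m, by omega, fun x => rfl⟩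
    have h3 : (τ : ℂ_[p] →+* ℂ_[p]).comp σ₁ ∈ S := hS σ₁ h2 _ (fun x => hτ _)
    obtain ⟨i', hi', hi''⟩ := (hS₀ _).1 h3
    have h4 : d = i' := by
      apply pow_inj (σ₀ := σ₀) hd2 (by omega)
      intro x
      rw [← hi'']
      change _ = τ (σ₀ ((γ ^ (d - m)) x))
      rw [hm'', ← AlgEquiv.mul_apply, ← pow_add]
      congr 3
      omega
    omega
  rw [hm'', hm0]
  rfl

/-- **The kernel for an interval type is the Leopoldt kernel.** -/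
theorem interval_ker [IsGalois ℚ K] {γ : K ≃ₐ[ℚ] K}
    (hγ : ∀ δ : K ≃ₐ[ℚ] K, δ ∈ Subgroup.zpowers γ) {d : ℕ} (hd : 0 < d)
    (hd2 : d < Module.finrank ℚ K) (hpl : Fintype.card (InfinitePlace K) ≤ d)
    {g : H ≃ₐ[ℚ] H} (hg : Lifts γ g) {χ : (H ≃ₐ[K] H) →* ℂ_[p]ˣ} (hχ : Function.Injective χ)
    (hF : ActsByFrobenius (K := K) p g) {S : Set (K →+* ℂ_[p])} (hS : Ordinary S)
    (hint : IsInterval γ d S) {L : ℂ_[p] → ℂ_[p]} (hL : IsIwasawaLog p L) {x : UM p H}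
    (hx : InChi χ x)
    (h0 : ∀ σ : H →+* ℂ_[p], σ.comp (algebraMap K H) ∈ S → logLin hL σ x = 0)
    (σ : H →+* ℂ_[p]) : logLin hL σ x = 0 := by
  obtain ⟨σ₀, hσ₀⟩ := hint
  obtain ⟨ρ, hρ⟩ := exists_tau hg χ hχ hF
  obtain ⟨s₀, hs₀⟩ := exists_ext (H := H) σ₀
  have hs₀' : ∀ k : K, s₀ (algebraMap K H k) = σ₀ k := fun k => RingHom.congr_fun hs₀ k
  have hfix : ∀ k : K, ext ρ (s₀ (algebraMap K H k)) = s₀ (algebraMap K H k) := by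
    intro k
    rw [hs₀']
    exact fix_of_ordinary hγ hd hd2 hS hσ₀ (ext_isom ρ) k
  obtain ⟨j, hj, hst⟩ := exists_stat (fun j => kerN χ hL s₀ g j)
    (fun i => kerN_anti χ hL s₀ g (Nat.le_succ i)) d
    ((finrank_kerN_zero χ hL s₀ g).trans hpl)
  have hxd : x ∈ kerN χ hL s₀ g d := by
    refine ⟨hx, fun i hi => h0 _ ?_⟩
    rw [hσ₀]
    refine ⟨i, hi, fun k => ?_⟩
    change s₀ ((g ^ i) (algebraMap K H k)) = _
    rw [hg.pow i, hs₀']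
  have hxj : x ∈ kerN χ hL s₀ g j := kerN_anti χ hL s₀ g hj hxd
  have hall := stat hL (ext_isom ρ) hg hρ hfix hst hxj
  obtain ⟨m, -, hm⟩ := exists_powQ hγ (σ.comp (algebraMap K H)) σ₀
  obtain ⟨h, hh⟩ := exists_aut (K := K) σ (emb s₀ g m) (by
    ext k
    rw [hm]
    change _ = s₀ ((g ^ m) (algebraMap K H k))
    rw [hg.pow m, hs₀'])
  rw [hh, logLin_inChi hL hx, hall m, mul_zero]

/-- if the order of `Gal(H/K)` is a power of `p` there is no condition -/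
lemma acts_of_pow {g : H ≃ₐ[ℚ] H} {n : ℕ} (hn : Module.finrank K H = p ^ n) :
    ActsByFrobenius (K := K) p g := by
  refine ⟨0, fun h hh y => ?_⟩
  have h1 : orderOf h ∣ p ^ n := by
    rw [← hn, ← IsGalois.card_aut_eq_finrank]
    exact orderOf_dvd_natCard h
  have h2 : orderOf h = 1 := Nat.Coprime.eq_one_of_dvd (Nat.Coprime.pow_right n hh) h1
  rw [orderOf_eq_one_iff] at h2
  subst h2
  simp

end main

end Pool.Agent.H512.IT
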