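import Pool.Agent.H512.IT.Abel
import Pool.Agent.H512.IT.DetOdd

set_option autoImplicit false
set_option linter.unusedSectionVars false

/-!
# The ratio of the logarithms at the two embeddings, and determinants modulo the maximal ideal
-/

namespace Pool.Agent.H512.IT

open NumberField TensorProduct Pool.Agent.W289.SL Pool.Agent.W332.SL6

variable {p : ℕ} [hp : Fact p.Prime]

section rho

variable {k H : Type} [Field k] [NumberField k] [Field H] [NumberField H] [Algebra k H]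
  [FiniteDimensional k H] [IsGalois k H]

/-- the relation between the logarithms at `s` and at `s ∘ g` of an element of the `ψ`-part, if the
`ψ`-part is at most one-dimensional -/
lemma rho_rel (hpl : ∀ w w' : InfinitePlace k, w = w') {τ : ℂ_[p] ≃+* ℂ_[p]} (hτ : Isom τ)
    {γ : k ≃ₐ[ℚ] k} {g : H ≃ₐ[ℚ] H} (hg : Lifts γ g) {ψ : (H ≃ₐ[k] H) →* ℂ_[p]ˣ}
    (hc : Compat τ g ψ) {L : ℂ_[p] → ℂ_[p]} (hL : IsIwasawaLog p L) {s : H →+* ℂ_[p]}
    {u a1 a2 : H ≃ₐ[k] H}
    (hs : ((τ.symm : ℂ_[p] ≃+* ℂ_[p]) : ℂ_[p] →+* ℂ_[p]).comp s = s.comp (u : H →+* H))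
    (ha1 : ∀ y, g (a1 y) = u (g y)) (ha2 : ∀ y, a2 y = u (g (g y))) {x : UM p H}
    (hx : InChi ψ x) :
    logLin hL s x * τ (((ψ a2 : ℂ_[p]ˣ) : ℂ_[p]) * logLin hL s x) =
      τ (((ψ a1 : ℂ_[p]ˣ) : ℂ_[p]) * logLin hL (s.comp (g : H →+* H)) x) *
        logLin hL (s.comp (g : H →+* H)) x := by
  have h1 : logLin hL s (opT τ g x) =
      τ (((ψ a1 : ℂ_[p]ˣ) : ℂ_[p]) * logLin hL (s.comp (g : H →+* H)) x) := by
    rw [opT_apply, logLin_tw hτ, logLin_push, ← logLin_inChi hL hx]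
    congr 3
    rw [hs]
    ext y
    change s (u (g y)) = s (g (a1 y))
    rw [ha1]
  have h2 : logLin hL (s.comp (g : H →+* H)) (opT τ g x) =
      τ (((ψ a2 : ℂ_[p]ˣ) : ℂ_[p]) * logLin hL s x) := by
    rw [opT_apply, logLin_tw hτ, logLin_push, ← logLin_inChi hL hx]
    congr 3
    rw [← RingHom.comp_assoc, hs]
    ext y
    change s (u (g (g y))) = s (a2 y)
    rw [ha2]
  have h3 : InChi ψ (logLin hL s x • opT τ g x - logLin hL s (opT τ g x) • x) :=
    ((opT_inChi hg hc hx).smul _).sub (hx.smul _)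
  have h4 : logLin hL s x • opT τ g x - logLin hL s (opT τ g x) • x = 0 := by
    apply zero_of_one_log hpl hL h3 s
    rw [map_sub, map_smul, map_smul, smul_eq_mul, smul_eq_mul, mul_comm, sub_self]
  have h5 := congrArg (logLin hL (s.comp (g : H →+* H))) h4
  rw [map_zero, map_sub, map_smul, map_smul, smul_eq_mul, smul_eq_mul, sub_eq_zero, h1, h2] at h5
  exact h5

end rho

section det

lemma prod_close {ι : Type} (s : Finset ι) (a b : ι → ℂ_[p]) (ha : ∀ i ∈ s, ‖a i‖ ≤ 1)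
    (hb : ∀ i ∈ s, ‖b i‖ ≤ 1) (hab : ∀ i ∈ s, ‖a i - b i‖ < 1) :
    ‖∏ i ∈ s, a i - ∏ i ∈ s, b i‖ < 1 := by
  classical
  induction s using Finset.induction_on with
  | empty => simp
  | insert i s hi ih =>
    rw [Finset.prod_insert hi, Finset.prod_insert hi]
    have h1 : a i * ∏ i ∈ s, a i - b i * ∏ i ∈ s, b i =
        a i * (∏ i ∈ s, a i - ∏ i ∈ s, b i) + (a i - b i) * ∏ i ∈ s, b i := by ring
    rw [h1]
    have h2 := ih (fun j hj => ha j (Finset.mem_insert_of_mem hj))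
      (fun j hj => hb j (Finset.mem_insert_of_mem hj))
      (fun j hj => hab j (Finset.mem_insert_of_mem hj))
    have h3 : ‖∏ i ∈ s, b i‖ ≤ 1 := by
      rw [norm_prod]
      exact Finset.prod_le_one (fun _ _ => norm_nonneg _)
        (fun j hj => hb j (Finset.mem_insert_of_mem hj))
    have h4 := ha i (Finset.mem_insert_self _ _)
    have h5 := hab i (Finset.mem_insert_self _ _)
    refine lt_of_le_of_lt (IsUltrametricDist.norm_add_le_max _ _) (max_lt ?_ ?_)
    · rw [norm_mul]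
      nlinarith [norm_nonneg (a i), norm_nonneg (∏ i ∈ s, a i - ∏ i ∈ s, b i)]
    · rw [norm_mul]
      nlinarith [norm_nonneg (a i - b i), norm_nonneg (∏ i ∈ s, b i)]

lemma sum_lt_one {ι : Type} (s : Finset ι) (f : ι → ℂ_[p]) (h : ∀ i ∈ s, ‖f i‖ < 1) :
    ‖∑ i ∈ s, f i‖ < 1 := by
  classical
  induction s using Finset.induction_on with
  | empty => simp
  | insert i s hi ih =>
    rw [Finset.sum_insert hi]
    exact lt_of_le_of_lt (IsUltrametricDist.norm_add_le_max _ _)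
      (max_lt (h i (Finset.mem_insert_self _ _))
        (ih (fun j hj => h j (Finset.mem_insert_of_mem hj))))

/-- a matrix which is congruent to a matrix with unit determinant is invertible -/
lemma det_close {ι : Type} [Fintype ι] [DecidableEq ι] (M M₀ : Matrix ι ι ℂ_[p])
    (hM : ∀ i j, ‖M i j‖ ≤ 1) (hM₀ : ∀ i j, ‖M₀ i j‖ ≤ 1) (h : ∀ i j, ‖M i j - M₀ i j‖ < 1)
    (hdet : ‖M₀.det‖ = 1) : M.det ≠ 0 := by
  intro h0
  have h1 : ‖M.det - M₀.det‖ < 1 := by
    rw [Matrix.det_apply, Matrix.det_apply, ← Finset.sum_sub_distrib]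
    apply sum_lt_one
    intro σ _
    rw [← smul_sub]
    have h2 := prod_close Finset.univ (fun i => M (σ i) i) (fun i => M₀ (σ i) i)
      (fun i _ => hM _ _) (fun i _ => hM₀ _ _) (fun i _ => h _ _)
    rcases Int.units_eq_one_or (Equiv.Perm.sign σ) with h3 | h3
    · rw [h3, one_smul]
      exact h2
    · rw [h3, Units.neg_smul, one_smul, norm_neg]
      exact h2
  rw [h0, zero_sub, norm_neg, hdet] at h1
  exact lt_irrefl _ h1

/-- square roots modulo the maximal ideal -/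
lemma sign_of_sq {a b : ℂ_[p]} (_ : ‖a‖ = 1) (hb : ‖b‖ = 1) (h : ‖a ^ 2 - b ^ 2‖ < 1) :
    ∃ e : ℤ, (e = 1 ∨ e = -1) ∧ ‖a / b - (e : ℂ_[p])‖ < 1 := by
  have hb0 : b ≠ 0 := by
    rintro rfl
    simp at hb
  have h1 : a ^ 2 - b ^ 2 = b ^ 2 * ((a / b - 1) * (a / b + 1)) := by
    field_simp
    ring
  rw [h1, norm_mul, norm_pow, hb, one_pow, one_mul, norm_mul] at h
  by_cases h2 : ‖a / b - 1‖ < 1
  · exact ⟨1, Or.inl rfl, by simpa using h2⟩
  · refine ⟨-1, Or.inr rfl, ?_⟩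
    push Not at h2
    have h3 : ‖a / b + 1‖ < 1 := by
      by_contra h3
      push Not at h3
      nlinarith
    simpa using h3

end det

end Pool.Agent.H512.IT
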