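import Pool.Agent.H512.IT.Abel

set_option autoImplicit false
set_option linter.unusedSectionVars false

/-!
# CM types of cyclic sextic fields
-/

namespace Pool.Agent.H512.IT

open NumberField TensorProduct Pool.Agent.W289.SL Pool.Agent.W332.SL6

variable {p : ℕ} [hp : Fact p.Prime]

section

variable {F K : Type} [Field F] [NumberField F] [Field K] [NumberField K] [Algebra F K]

lemma card_places [IsTotallyComplex K] (hFK : Module.finrank F K = 2) :
    Fintype.card (InfinitePlace K) = Module.finrank ℚ F := by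
  have h0 : Module.finrank ℚ K = Module.finrank ℚ F * 2 := by
    rw [← Module.finrank_mul_finrank ℚ F K, hFK]
  have h1 := IsTotallyComplex.finrank K
  have h1' := InfinitePlace.card_eq_nrRealPlaces_add_nrComplexPlaces K
  rw [IsTotallyComplex.nrRealPlaces_eq_zero K] at h1'
  omega

/-- the complex conjugation is the power `γ ^ d` of a generator -/
lemma conj_eq [IsGalois ℚ K] (hFK : Module.finrank F K = 2) {γ : K ≃ₐ[ℚ] K}
    (hγ : ∀ δ : K ≃ₐ[ℚ] K, δ ∈ Subgroup.zpowers γ) :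
    ∃ c : K ≃ₐ[F] K, c ≠ 1 ∧ ∀ x, c x = (γ ^ Module.finrank ℚ F) x := by
  classical
  have : Algebra.IsQuadraticExtension F K := ⟨hFK⟩
  have : FiniteDimensional F K := Module.finite_of_finrank_pos (by omega)
  have : IsGalois F K := inferInstance
  have hcard : Nat.card (K ≃ₐ[F] K) = 2 := by rw [IsGalois.card_aut_eq_finrank, hFK]
  obtain ⟨c, hc1, -⟩ := (Nat.card_eq_two_iff' (1 : K ≃ₐ[F] K)).1 hcard
  have hcc : c ^ 2 = 1 := by rw [← hcard]; exact pow_card_eq_one'
  refine ⟨c, hc1, ?_⟩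
  set c' : K ≃ₐ[ℚ] K := c.restrictScalars ℚ with hc'
  have hcx : ∀ x, c' x = c x := fun x => rfl
  have h1 := hγ c'
  rw [← mem_powers_iff_mem_zpowers] at h1
  obtain ⟨m, hm, hm'⟩ := (mem_powers_iff_mem_range_orderOf).1 h1 |> Finset.mem_image.1
  rw [Finset.mem_range, orderOf_gen hγ] at hm
  have hm'' : γ ^ m = c' := hm'
  have hfin : Module.finrank ℚ K = Module.finrank ℚ F * 2 := by
    rw [← Module.finrank_mul_finrank ℚ F K, hFK]
  have h2 : γ ^ (m * 2) = 1 := by
    rw [pow_mul, hm'']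
    ext x
    rw [pow_two, AlgEquiv.mul_apply, hcx, hcx]
    have h3 := congrArg (fun f : K ≃ₐ[F] K => f x) hcc
    rw [pow_two] at h3
    exact h3
  have h3 := orderOf_dvd_of_pow_eq_one h2
  rw [orderOf_gen hγ, hfin] at h3
  have h4 : Module.finrank ℚ F ∣ m := Nat.dvd_of_mul_dvd_mul_right (by norm_num) h3
  have hm0 : m ≠ 0 := by
    rintro rfl
    apply hc1
    ext x
    rw [← hcx, ← hm'', pow_zero]
    rfl
  obtain ⟨e, he⟩ := h4
  have hFpos : 0 < Module.finrank ℚ F := Module.finrank_pos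
  have he1 : e = 1 := by
    rcases e with _ | _ | e
    · omega
    · rfl
    · exfalso
      rw [hfin, he] at hm
      have := Nat.lt_of_mul_lt_mul_left hm
      omega
  rw [he1, mul_one] at he
  intro x
  rw [← hcx, ← hm'', he]

/-- a CM type of a cyclic sextic field is an interval or is induced from the imaginary quadratic
subfield -/
lemma sextic [IsGalois ℚ K] (hFK : Module.finrank F K = 2) (hF : Module.finrank ℚ F = 3)
    {γ : K ≃ₐ[ℚ] K} (hγ : ∀ δ : K ≃ₐ[ℚ] K, δ ∈ Subgroup.zpowers γ) {S : Set (K →+* ℂ_[p])}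
    (hS : IsCMType p F K S) :
    IsInterval γ 3 S ∨ (S.Nonempty ∧ ∀ σ ∈ S, ∀ σ' : K →+* ℂ_[p], ∀ n : ℕ,
      (∀ x, σ' x = σ ((γ ^ (2 * n)) x)) → σ' ∈ S) := by
  classical
  obtain ⟨c, hc1, hc⟩ := conj_eq hFK hγ
  rw [hF] at hc
  have hSc := hS c hc1
  have hord : orderOf γ = 6 := by
    rw [orderOf_gen hγ, ← Module.finrank_mul_finrank ℚ F K, hFK, hF]
  obtain ⟨σ₀⟩ : Nonempty (K →+* ℂ_[p]) := inferInstance
  let e : ℕ → (K →+* ℂ_[p]) := fun i => σ₀.comp ((γ ^ i : K ≃ₐ[ℚ] K) : K →+* K)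
  have he : ∀ i x, e i x = σ₀ ((γ ^ i) x) := fun i x => rfl
  let P : ℕ → Prop := fun i => e i ∈ S
  have hP3 : ∀ i, P (i + 3) ↔ ¬ P i := by
    intro i
    have h1 : (e i).comp (c : K →+* K) = e (i + 3) := by
      ext x
      change σ₀ ((γ ^ i) (c x)) = σ₀ ((γ ^ (i + 3)) x)
      rw [hc, pow_add, AlgEquiv.mul_apply]
    have h2 := hSc (e i)
    rw [h1] at h2
    change e (i + 3) ∈ S ↔ ¬ e i ∈ S
    tauto
  have hmem : ∀ σ : K →+* ℂ_[p], ∃ m < 6, σ = e m := by
    intro σ
    obtain ⟨m, hm, hm'⟩ := exists_powQ hγ σ σ₀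
    rw [hord] at hm
    exact ⟨m, hm, by ext x; rw [hm', he]⟩
  have he6 : ∀ i, e (i + 6) = e i := by
    intro i
    ext x
    rw [he, he, pow_add, ← hord, pow_orderOf_eq_one, mul_one]
  have hemul : ∀ q i, e (i + 6 * q) = e i := by
    intro q
    induction q with
    | zero => intro i; rfl
    | succ q ih =>
      intro i
      rw [mul_add, mul_one, ← add_assoc, he6, ih]
  have hemod : ∀ i, e i = e (i % 6) := by
    intro i
    conv_lhs => rw [← Nat.mod_add_div i 6]
    exact hemul _ _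
  -- intervals
  have hint : ∀ a, P a → P (a + 1) → P (a + 2) → IsInterval γ 3 S := by
    intro a h0 h1 h2
    refine ⟨e a, fun σ => ?_⟩
    have hea : ∀ i x, e a ((γ ^ i) x) = e (a + i) x := by
      intro i x
      rw [he, he, pow_add, AlgEquiv.mul_apply]
    constructor
    · intro hσ
      obtain ⟨m, hm, rfl⟩ := hmem σ
      have hPm : P m := hσ
      -- `m ≡ a + i` modulo `6`
      obtain ⟨i, hi, hi'⟩ : ∃ i < 6, e m = e (a + i) := by
        refine ⟨(m + 5 * a) % 6, Nat.mod_lt _ (by norm_num), ?_⟩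
        rw [hemod m, hemod (a + (m + 5 * a) % 6)]
        congr 1
        omega
      by_cases hi3 : i < 3
      · exact ⟨i, hi3, fun x => by rw [hea, hi']⟩
      · exfalso
        have h3 : P (a + i) := by
          change e (a + i) ∈ S
          rw [← hi']
          exact hPm
        obtain ⟨i', rfl⟩ : ∃ i', i = i' + 3 := ⟨i - 3, by omega⟩
        rw [← add_assoc, hP3] at h3
        have hi'' : i' < 3 := by omega
        interval_cases i'
        · exact h3 h0
        · exact h3 h1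
        · exact h3 h2
    · rintro ⟨i, hi, hi'⟩
      have h3 : σ = e (a + i) := by
        ext x
        rw [hi', hea]
      rw [h3]
      interval_cases i
      · exact h0
      · exact h1
      · exact h2
  by_cases hex : ∃ a, P a ∧ P (a + 1) ∧ P (a + 2)
  · obtain ⟨a, h0, h1, h2⟩ := hex
    exact Or.inl (hint a h0 h1 h2)
  · right
    push Not at hex
    have hP6 : ∀ i, P (i + 6) ↔ P i := by
      intro i
      change e (i + 6) ∈ S ↔ e i ∈ S
      rw [he6]
    have hstep : ∀ m, P m → P (m + 2) := by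
      intro m hm
      by_contra h2
      have h5 : P (m + 5) := (hP3 (m + 2)).2 h2
      have h6 : P (m + 6) := (hP6 m).2 hm
      by_cases h1 : P (m + 1)
      · exact hex (m + 5) h5 h6 ((hP6 (m + 1)).2 h1)
      · exact hex (m + 4) ((hP3 (m + 1)).2 h1) h5 h6
    have hstep' : ∀ σ ∈ S, ∀ σ' : K →+* ℂ_[p], (∀ x, σ' x = σ ((γ ^ 2) x)) → σ' ∈ S := by
      intro σ hσ σ' hσ'
      obtain ⟨m, hm, rfl⟩ := hmem σ
      have h1 : σ' = e (m + 2) := by
        ext x
        rw [hσ', he, he, pow_add, AlgEquiv.mul_apply]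
      rw [h1]
      exact hstep m hσ
    refine ⟨?_, ?_⟩
    · by_cases h : P 0
      · exact ⟨_, h⟩
      · exact ⟨e 3, (hP3 0).2 h⟩
    · intro σ hσ σ' n hσ'
      induction n generalizing σ' with
      | zero =>
        have : σ' = σ := by
          ext x
          rw [hσ']
          rfl
        rw [this]
        exact hσ
      | succ n ih =>
        let σ'' : K →+* ℂ_[p] := σ.comp ((γ ^ (2 * n) : K ≃ₐ[ℚ] K) : K →+* K)
        have h1 : σ'' ∈ S := ih σ'' (fun x => rfl)
        apply hstep' σ'' h1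
        intro x
        rw [hσ']
        change _ = σ ((γ ^ (2 * n)) ((γ ^ 2) x))
        rw [← AlgEquiv.mul_apply, ← pow_add]
        congr 3

/-- the embeddings above one embedding of the imaginary quadratic subfield -/
lemma mem_of_induced [IsGalois ℚ K] (hFK : Module.finrank F K = 2) (hF : Module.finrank ℚ F = 3)
    {γ : K ≃ₐ[ℚ] K} (hγ : ∀ δ : K ≃ₐ[ℚ] K, δ ∈ Subgroup.zpowers γ) {S : Set (K →+* ℂ_[p])}
    (hS : ∀ σ ∈ S, ∀ σ' : K →+* ℂ_[p], ∀ n : ℕ, (∀ x, σ' x = σ ((γ ^ (2 * n)) x)) → σ' ∈ S)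
    (k : Type) [Field k] [NumberField k] [Algebra k K] (hk : Module.finrank ℚ k = 2)
    {σ σ' : K →+* ℂ_[p]} (hσ : σ ∈ S)
    (h : σ'.comp (algebraMap k K) = σ.comp (algebraMap k K)) : σ' ∈ S := by
  classical
  have : IsGalois k K := IsGalois.tower_top_of_isGalois ℚ k K
  have hord : orderOf γ = 6 := by
    rw [orderOf_gen hγ, ← Module.finrank_mul_finrank ℚ F K, hFK, hF]
  have hkK : Module.finrank k K = 3 := by
    have h1 := Module.finrank_mul_finrank ℚ k K
    have h2 := Module.finrank_mul_finrank ℚ F K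
    rw [hk, ← h2, hFK, hF] at h1
    omega
  obtain ⟨δ, hδ⟩ := exists_aut (K := k) σ' σ h
  have hδ3 : δ ^ 3 = 1 := by
    rw [← hkK, ← IsGalois.card_aut_eq_finrank]
    exact pow_card_eq_one'
  set δ' : K ≃ₐ[ℚ] K := δ.restrictScalars ℚ with hδ'
  have hδx : ∀ x, δ' x = δ x := fun x => rfl
  have h1 := hγ δ'
  rw [← mem_powers_iff_mem_zpowers] at h1
  obtain ⟨m, hm⟩ := (Submonoid.mem_powers_iff _ _).1 h1
  have h2 : γ ^ (m * 3) = 1 := by
    rw [pow_mul, hm]
    ext x
    have h3 := congrArg (fun f : K ≃ₐ[k] K => f x) hδ3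
    exact h3
  have h3 := orderOf_dvd_of_pow_eq_one h2
  rw [hord] at h3
  obtain ⟨n, rfl⟩ : 2 ∣ m := by omega
  apply hS σ hσ σ' n
  intro x
  rw [hm, hδx]
  exact RingHom.congr_fun hδ x

/-- an interval is a CM type -/
lemma isCMType_of_interval [IsGalois ℚ K] (hFK : Module.finrank F K = 2)
    {γ : K ≃ₐ[ℚ] K} (hγ : ∀ δ : K ≃ₐ[ℚ] K, δ ∈ Subgroup.zpowers γ) {S : Set (K →+* ℂ_[p])}
    (hS : IsInterval γ (Module.finrank ℚ F) S) : IsCMType p F K S := by
  classical
  have : Algebra.IsQuadraticExtension F K := ⟨hFK⟩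
  have : FiniteDimensional F K := Module.finite_of_finrank_pos (by omega)
  have : IsGalois F K := inferInstance
  have hcard : Nat.card (K ≃ₐ[F] K) = 2 := by rw [IsGalois.card_aut_eq_finrank, hFK]
  obtain ⟨c, hc1, hc⟩ := conj_eq hFK hγ
  obtain ⟨c₀, hc₀, hcu⟩ := (Nat.card_eq_two_iff' (1 : K ≃ₐ[F] K)).1 hcard
  have hcu' : ∀ c' : K ≃ₐ[F] K, c' ≠ 1 → c' = c := fun c' hc' =>
    (hcu c' hc').trans (hcu c hc1).symm
  set d := Module.finrank ℚ F with hd
  have hdpos : 0 < d := Module.finrank_pos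
  have hord : orderOf γ = 2 * d := by
    rw [orderOf_gen hγ, ← Module.finrank_mul_finrank ℚ F K, hFK, mul_comm]
  obtain ⟨σ₀, hσ₀⟩ := hS
  intro c' hc' σ
  rw [hcu' c' hc']
  obtain ⟨m, hm, hm'⟩ := exists_powQ hγ σ σ₀
  rw [hord] at hm
  have hmem : ∀ σ : K →+* ℂ_[p], ∀ m < 2 * d, (∀ x, σ x = σ₀ ((γ ^ m) x)) →
      (σ ∈ S ↔ m < d) := by
    intro σ m hm hm'
    rw [hσ₀]
    constructor
    · rintro ⟨i, hi, hi'⟩
      have h1 : m = i := pow_inj (γ := γ) (σ₀ := σ₀) (by omega) (by omega)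
        (fun x => by rw [← hm', hi'])
      omega
    · intro h
      exact ⟨m, h, hm'⟩
  have hcomp : ∀ x, (σ.comp (c : K →+* K)) x = σ₀ ((γ ^ (m + d)) x) := by
    intro x
    change σ (c x) = _
    rw [hc, hm', pow_add, AlgEquiv.mul_apply]
  rw [hmem σ m hm hm']
  by_cases h : m < d
  · rw [hmem (σ.comp (c : K →+* K)) (m + d) (by omega) hcomp]
    omega
  · rw [hmem (σ.comp (c : K →+* K)) (m - d) (by omega) (by
      intro x
      rw [hcomp]
      have h1 : m + d = (m - d) + 2 * d := by omega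
      rw [h1, pow_add, ← hord, pow_orderOf_eq_one, mul_one])]
    omega

/-- the CM types of a cyclic quartic field are intervals -/
lemma quartic [IsGalois ℚ K] (hFK : Module.finrank F K = 2) (hF : Module.finrank ℚ F = 2)
    {γ : K ≃ₐ[ℚ] K} (hγ : ∀ δ : K ≃ₐ[ℚ] K, δ ∈ Subgroup.zpowers γ) {S : Set (K →+* ℂ_[p])}
    (hS : IsCMType p F K S) : IsInterval γ 2 S := by
  classical
  obtain ⟨c, hc1, hc⟩ := conj_eq hFK hγ
  rw [hF] at hc
  have hSc := hS c hc1
  have hord : orderOf γ = 4 := by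
    rw [orderOf_gen hγ, ← Module.finrank_mul_finrank ℚ F K, hFK, hF]
  obtain ⟨σ₀⟩ : Nonempty (K →+* ℂ_[p]) := inferInstance
  let e : ℕ → (K →+* ℂ_[p]) := fun i => σ₀.comp ((γ ^ i : K ≃ₐ[ℚ] K) : K →+* K)
  have he : ∀ i x, e i x = σ₀ ((γ ^ i) x) := fun i x => rfl
  let P : ℕ → Prop := fun i => e i ∈ S
  have hP2 : ∀ i, P (i + 2) ↔ ¬ P i := by
    intro i
    have h1 : (e i).comp (c : K →+* K) = e (i + 2) := by
      ext x
      change σ₀ ((γ ^ i) (c x)) = σ₀ ((γ ^ (i + 2)) x)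
      rw [hc, pow_add, AlgEquiv.mul_apply]
    have h2 := hSc (e i)
    rw [h1] at h2
    change e (i + 2) ∈ S ↔ ¬ e i ∈ S
    tauto
  have hmem : ∀ σ : K →+* ℂ_[p], ∃ m < 4, σ = e m := by
    intro σ
    obtain ⟨m, hm, hm'⟩ := exists_powQ hγ σ σ₀
    rw [hord] at hm
    exact ⟨m, hm, by ext x; rw [hm', he]⟩
  have he4 : ∀ i, e (i + 4) = e i := by
    intro i
    ext x
    rw [he, he, pow_add, ← hord, pow_orderOf_eq_one, mul_one]
  have hemul : ∀ q i, e (i + 4 * q) = e i := by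
    intro q
    induction q with
    | zero => intro i; rfl
    | succ q ih =>
      intro i
      rw [mul_add, mul_one, ← add_assoc, he4, ih]
  have hemod : ∀ i, e i = e (i % 4) := by
    intro i
    conv_lhs => rw [← Nat.mod_add_div i 4]
    exact hemul _ _
  have hint : ∀ a, P a → P (a + 1) → IsInterval γ 2 S := by
    intro a h0 h1
    refine ⟨e a, fun σ => ?_⟩
    have hea : ∀ i x, e a ((γ ^ i) x) = e (a + i) x := by
      intro i x
      rw [he, he, pow_add, AlgEquiv.mul_apply]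
    constructor
    · intro hσ
      obtain ⟨m, hm, rfl⟩ := hmem σ
      have hPm : P m := hσ
      obtain ⟨i, hi, hi'⟩ : ∃ i < 4, e m = e (a + i) := by
        refine ⟨(m + 3 * a) % 4, Nat.mod_lt _ (by norm_num), ?_⟩
        rw [hemod m, hemod (a + (m + 3 * a) % 4)]
        congr 1
        omega
      by_cases hi2 : i < 2
      · exact ⟨i, hi2, fun x => by rw [hea, hi']⟩
      · exfalso
        have h3 : P (a + i) := by
          change e (a + i) ∈ S
          rw [← hi']
          exact hPm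
        obtain ⟨i', rfl⟩ : ∃ i', i = i' + 2 := ⟨i - 2, by omega⟩
        rw [← add_assoc, hP2] at h3
        have hi'' : i' < 2 := by omega
        interval_cases i'
        · exact h3 h0
        · exact h3 h1
    · rintro ⟨i, hi, hi'⟩
      have h3 : σ = e (a + i) := by
        ext x
        rw [hi', hea]
      rw [h3]
      interval_cases i
      · exact h0
      · exact h1
  have hP4 : ∀ i, P (i + 4) ↔ P i := by
    intro i
    change e (i + 4) ∈ S ↔ e i ∈ S
    rw [he4]
  by_cases h0 : P 0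
  · by_cases h1 : P 1
    · exact hint 0 h0 h1
    · exact hint 3 ((hP2 1).2 h1) ((hP4 0).2 h0)
  · by_cases h1 : P 1
    · exact hint 1 h1 ((hP2 0).2 h0)
    · exact hint 2 ((hP2 0).2 h0) ((hP2 1).2 h1)

end

end Pool.Agent.H512.IT
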