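import Pool.Agent.H512.IT.Frob

set_option autoImplicit false
set_option linter.unusedSectionVars false

/-!
# Roots of unity in the algebraic closure of `ℚ_p`: the wild part
-/

namespace Pool.Agent.H512.IT

open Polynomial

variable {p : ℕ} [hp : Fact p.Prime]

lemma norm_det_le {r : ℕ} (M : Matrix (Fin r) (Fin r) (PadicAlgCl p)) (h : ∀ i j, ‖M i j‖ ≤ 1) :
    ‖M.det‖ ≤ 1 := by
  rw [Matrix.det_apply, ← mem_intg]
  refine Subring.sum_mem _ fun σ _ => ?_
  have h1 : ∏ i, M (σ i) i ∈ intg p := Subring.prod_mem _ fun i _ => mem_intg.2 (h _ _)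
  rcases Int.units_eq_one_or (Equiv.Perm.sign σ) with h2 | h2
  · rw [h2, one_smul]; exact h1
  · rw [h2]
    have : (-1 : ℤˣ) • ∏ i, M (σ i) i = -∏ i, M (σ i) i := by
      rw [Units.neg_smul, one_smul]
    rw [this]
    exact Subring.neg_mem _ h1

lemma norm_adjugate_le {r : ℕ} (M : Matrix (Fin r) (Fin r) (PadicAlgCl p))
    (h : ∀ i j, ‖M i j‖ ≤ 1) (i j : Fin r) : ‖M.adjugate i j‖ ≤ 1 := by
  rw [Matrix.adjugate_apply]
  apply norm_det_le
  intro a b
  rw [Matrix.updateRow_apply]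
  split_ifs
  · by_cases hb : b = i
    · subst hb; simp
    · rw [Pi.single_eq_of_ne hb]; simp
  · exact h a b

/-- the value group of an extension of `ℚ_p` generated by a root of unity of order prime to `p` -/
lemma value_group {n : ℕ} (hn : ¬ p ∣ n) {z : PadicAlgCl p} (hz : z ^ n = 1)
    {x : PadicAlgCl p} (hx : x ∈ IntermediateField.adjoin ℚ_[p] {z}) (hx0 : x ≠ 0) :
    ∃ m : ℤ, ‖x‖ = (p : ℝ) ^ m := by
  classical
  have hn0 : n ≠ 0 := by rintro rfl; exact hn (dvd_zero _)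
  have hzQ : IsIntegral ℚ_[p] z := isIntegral_root hn0 hz _
  set f := minpoly ℚ_[p] z with hf
  have hfm : f.Monic := minpoly.monic hzQ
  -- `x` is a polynomial in `z` of small degree
  obtain ⟨q, hq⟩ : ∃ q : ℚ_[p][X], aeval z q = x := by
    have h1 : x ∈ (IntermediateField.adjoin ℚ_[p] {z}).toSubalgebra := hx
    rw [IntermediateField.adjoin_simple_toSubalgebra_of_isAlgebraic hzQ.isAlgebraic,
      Algebra.adjoin_singleton_eq_range_aeval] at h1
    exact h1
  set a := q %ₘ f with ha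
  set r := f.natDegree with hr
  have hax : aeval z a = x := by
    rw [ha, ← hq]
    exact aeval_modByMonic_eq_self_of_root (minpoly.aeval _ _)
  have hdeg : a.natDegree < r := by
    apply natDegree_modByMonic_lt _ hfm
    intro h1
    exact minpoly.ne_one ℚ_[p] z h1
  -- the roots
  have hdvd : f ∣ X ^ n - 1 := by
    apply minpoly.dvd
    rw [map_sub, map_pow, aeval_X, map_one, hz, sub_self]
  set F := f.map (algebraMap ℚ_[p] (PadicAlgCl p)) with hF
  have hsep : F.Separable := by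
    rw [hF, separable_map]
    exact (minpoly.irreducible hzQ).separable
  have hnodup : F.roots.Nodup := nodup_roots hsep
  have hcard : F.roots.toFinset.card = r := by
    rw [Multiset.toFinset_card_of_nodup hnodup,
      ← (IsAlgClosed.splits F).natDegree_eq_card_roots, hF, natDegree_map]
  let e := Finset.equivFinOfCardEq hcard
  let w : Fin r → PadicAlgCl p := fun i => (e.symm i : PadicAlgCl p)
  have hwinj : Function.Injective w := by
    intro i j hij
    exact e.symm.injective (Subtype.ext hij)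
  have hwroot : ∀ i, aeval (w i) f = 0 := by
    intro i
    have h1 := (e.symm i).2
    rw [Multiset.mem_toFinset, mem_roots'] at h1
    rw [aeval_def, ← eval_map]; exact h1.2
  have hwn : ∀ i, w i ^ n = 1 := by
    intro i
    obtain ⟨q, hq⟩ := hdvd
    have h2 := congrArg (aeval (w i)) hq
    rw [map_mul, hwroot, zero_mul, map_sub, map_pow, aeval_X, map_one, sub_eq_zero] at h2
    exact h2
  have hw1 : ∀ i, ‖w i‖ = 1 := fun i => norm_root hn0 (hwn i)
  have hwx : ∀ i, ‖aeval (w i) a‖ = ‖x‖ := by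
    intro i
    obtain ⟨σ, hσ⟩ := (isConjRoot_of_aeval_eq_zero hzQ (hwroot i)).symm.exists_algEquiv
    have h1 : aeval (w i) a = σ x := by
      rw [← hax, ← hσ, ← AlgEquiv.coe_toAlgHom, ← aeval_algHom_apply]
    rw [h1]
    exact (spectralNorm_eq_of_equiv σ x).symm
  -- the coefficients
  have hnc : ∀ i, ‖algebraMap ℚ_[p] (PadicAlgCl p) (a.coeff i)‖ = ‖a.coeff i‖ := fun i =>
    PadicAlgCl.norm_extends p _
  let V : Matrix (Fin r) (Fin r) (PadicAlgCl p) := Matrix.vandermonde w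
  have hVapp : ∀ i j : Fin r, V i j = w i ^ (j : ℕ) := fun i j => Matrix.vandermonde_apply _ _ _
  have hVdet : ‖V.det‖ = 1 := by
    rw [Matrix.det_vandermonde, norm_prod]
    apply Finset.prod_eq_one
    intro i _
    rw [norm_prod]
    apply Finset.prod_eq_one
    intro j hj
    apply norm_sub_of_ne hn (hwn j) (hwn i)
    intro h
    have := hwinj h
    rw [Finset.mem_Ioi] at hj
    exact absurd this (ne_of_gt hj)
  have hVle : ∀ i j, ‖V i j‖ ≤ 1 := by
    intro i j
    rw [hVapp, norm_pow, hw1, one_pow]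
  let c : Fin r → PadicAlgCl p := fun i => algebraMap ℚ_[p] (PadicAlgCl p) (a.coeff i)
  have hVc : ∀ i, (V.mulVec c) i = aeval (w i) a := by
    intro i
    rw [aeval_eq_sum_range' hdeg, Finset.sum_range]
    simp only [Matrix.mulVec, dotProduct]
    refine Finset.sum_congr rfl fun j _ => ?_
    rw [hVapp, Algebra.smul_def, mul_comm]
  have hcle : ∀ i, ‖c i‖ ≤ ‖x‖ := by
    intro i
    have h1 : (V.adjugate.mulVec (V.mulVec c)) i = V.det * c i := by
      rw [Matrix.mulVec_mulVec, Matrix.adjugate_mul, Matrix.smul_mulVec, Matrix.one_mulVec]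
      rfl
    have h2 : ‖c i‖ = ‖V.det * c i‖ := by rw [norm_mul, hVdet, one_mul]
    rw [h2, ← h1]
    simp only [Matrix.mulVec, dotProduct]
    apply IsUltrametricDist.norm_sum_le_of_forall_le_of_nonneg (norm_nonneg _)
    intro j _
    have h3 : ‖(V.mulVec c) j‖ = ‖x‖ := by rw [hVc, hwx]
    rw [norm_mul]
    have h4 := norm_adjugate_le V hVle i j
    have h5 : ‖∑ k, V j k * c k‖ = ‖x‖ := h3
    rw [h5]
    nlinarith [norm_nonneg x]
  obtain ⟨i, hi⟩ : ∃ i : Fin r, ‖x‖ ≤ ‖c i‖ := by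
    by_contra hcon
    push Not at hcon
    have h1 : ‖x‖ < ‖x‖ := by
      have h2 : x = ∑ i : Fin r, c i * z ^ (i : ℕ) := by
        conv_lhs => rw [← hax, aeval_eq_sum_range' hdeg, Finset.sum_range]
        refine Finset.sum_congr rfl fun j _ => ?_
        rw [Algebra.smul_def]
      have hne : (Finset.univ : Finset (Fin r)).Nonempty := by
        rw [Finset.univ_nonempty_iff]
        exact ⟨⟨0, by omega⟩⟩
      obtain ⟨i, -, hi⟩ := IsUltrametricDist.exists_norm_finsetSum_le_of_nonempty hne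
        (fun i : Fin r => c i * z ^ (i : ℕ))
      rw [← h2] at hi
      refine lt_of_le_of_lt hi ?_
      rw [norm_mul, norm_pow, norm_root hn0 hz, one_pow, mul_one]
      exact hcon i
    exact lt_irrefl _ h1
  have h1 : ‖x‖ = ‖a.coeff i‖ := by
    rw [← hnc]
    exact le_antisymm hi (hcle i)
  have h2 : a.coeff i ≠ 0 := by
    intro h
    rw [h, norm_zero] at h1
    exact hx0 (norm_eq_zero.1 h1)
  exact ⟨-(a.coeff i).valuation, by rw [h1, Padic.norm_eq_zpow_neg_valuation h2]⟩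

lemma norm_one_sub_primitive_le {N : ℕ} {a b : PadicAlgCl p} (ha : IsPrimitiveRoot a N)
    (hb : IsPrimitiveRoot b N) (hN : 0 < N) : ‖1 - b‖ ≤ ‖1 - a‖ := by
  have : NeZero N := ⟨hN.ne'⟩
  obtain ⟨i, -, rfl⟩ := ha.eq_pow_of_pow_eq_one hb.pow_eq_one
  exact norm_one_sub_pow_le (norm_root hN.ne' ha.pow_eq_one).le i

lemma norm_one_sub_primitive {N : ℕ} {a b : PadicAlgCl p} (ha : IsPrimitiveRoot a N)
    (hb : IsPrimitiveRoot b N) (hN : 0 < N) : ‖1 - b‖ = ‖1 - a‖ :=
  le_antisymm (norm_one_sub_primitive_le ha hb hN) (norm_one_sub_primitive_le hb ha hN)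

lemma norm_one_sub_pow_totient {k : ℕ} {a : PadicAlgCl p} (ha : IsPrimitiveRoot a (p ^ (k + 1))) :
    ‖1 - a‖ ^ Nat.totient (p ^ (k + 1)) = (p : ℝ)⁻¹ := by
  classical
  have hN : 0 < p ^ (k + 1) := pow_pos hp.out.pos _
  have h1 := eval_one_cyclotomic_prime_pow (R := PadicAlgCl p) (p := p) k
  rw [cyclotomic_eq_prod_X_sub_primitiveRoots ha, eval_prod] at h1
  have h2 := congrArg norm h1
  rw [norm_prod] at h2
  have h3 : ∏ b ∈ primitiveRoots (p ^ (k + 1)) (PadicAlgCl p), ‖eval 1 (X - C b)‖ =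
      ∏ b ∈ primitiveRoots (p ^ (k + 1)) (PadicAlgCl p), ‖1 - a‖ := by
    refine Finset.prod_congr rfl fun b hb => ?_
    rw [eval_sub, eval_X, eval_C]
    exact norm_one_sub_primitive ha ((mem_primitiveRoots hN).1 hb) hN
  rw [h3, Finset.prod_const, ha.card_primitiveRoots] at h2
  rw [h2, ← map_natCast (algebraMap ℚ_[p] (PadicAlgCl p)) p]
  exact (PadicAlgCl.norm_extends p _).trans Padic.norm_p

/-- over a field generated by a root of unity of order prime to `p`, all primitive roots of unity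
of order a power of `p` are conjugate -/
lemma conj_wild {n : ℕ} (hn : ¬ p ∣ n) {z : PadicAlgCl p} (hz : z ^ n = 1) {k : ℕ}
    {a b : PadicAlgCl p} (ha : IsPrimitiveRoot a (p ^ k)) (hb : IsPrimitiveRoot b (p ^ k)) :
    IsConjRoot (IntermediateField.adjoin ℚ_[p] {z}) a b := by
  classical
  rcases k with _ | k
  · rw [pow_zero, IsPrimitiveRoot.one_right_iff] at ha hb
    rw [ha, hb]
  set E := IntermediateField.adjoin ℚ_[p] {z} with hE
  have hN : 0 < p ^ (k + 1) := pow_pos hp.out.pos _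
  have haE : IsIntegral E a := IsIntegral.of_pow hN (by rw [ha.pow_eq_one]; exact isIntegral_one)
  rw [isConjRoot_iff_aeval_eq_zero haE]
  set g := minpoly E a with hg
  have hgm : g.Monic := minpoly.monic haE
  have hroot : ∀ c : PadicAlgCl p, IsPrimitiveRoot c (p ^ (k + 1)) →
      aeval c (cyclotomic (p ^ (k + 1)) E) = 0 := by
    intro c hc
    rw [aeval_def, ← eval_map, map_cyclotomic]
    exact (isRoot_cyclotomic_iff.2 hc)
  have hdvd : g ∣ cyclotomic (p ^ (k + 1)) E := minpoly.dvd _ _ (hroot a ha)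
  -- the roots of `g` are primitive roots of unity
  have hprim : ∀ c : PadicAlgCl p, aeval c g = 0 → IsPrimitiveRoot c (p ^ (k + 1)) := by
    intro c hc
    obtain ⟨q, hq⟩ := hdvd
    have h2 := congrArg (aeval c) hq
    rw [map_mul, hc, zero_mul, aeval_def, ← eval_map, map_cyclotomic] at h2
    exact isRoot_cyclotomic_iff.1 h2
  set φ := Nat.totient (p ^ (k + 1)) with hφ
  have hφ0 : 0 < φ := Nat.totient_pos.2 hN
  set ρ := ‖1 - a‖ with hρ
  have hρφ : ρ ^ φ = (p : ℝ)⁻¹ := norm_one_sub_pow_totient ha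
  -- the value of `g` at one
  have hval : ‖aeval (1 : PadicAlgCl p) g‖ = ρ ^ g.natDegree := by
    have hsp := IsAlgClosed.splits (g.map (algebraMap E (PadicAlgCl p)))
    have hmon : (g.map (algebraMap E (PadicAlgCl p))).Monic := hgm.map _
    have h1 : aeval (1 : PadicAlgCl p) g = ((g.map (algebraMap E (PadicAlgCl p))).roots.map
        fun a => 1 - a).prod := by
      rw [aeval_def, ← eval_map, hsp.eval_eq_prod_roots_of_monic hmon]
    have h2 : g.natDegree = Multiset.card (g.map (algebraMap E (PadicAlgCl p))).roots := by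
      rw [← hsp.natDegree_eq_card_roots, natDegree_map]
    rw [h1, h2]
    have h3 : ∀ c ∈ (g.map (algebraMap E (PadicAlgCl p))).roots, ‖1 - c‖ = ρ := by
      intro c hc
      rw [mem_roots'] at hc
      have h4 : aeval c g = 0 := by
        rw [aeval_def, ← eval_map]; exact hc.2
      exact norm_one_sub_primitive ha (hprim c h4) hN
    revert h3
    generalize (g.map (algebraMap E (PadicAlgCl p))).roots = s
    induction s using Multiset.induction_on with
    | empty => simp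
    | cons c s ih =>
      intro h3
      rw [Multiset.map_cons, Multiset.prod_cons, norm_mul, h3 c (Multiset.mem_cons_self _ _),
        ih (fun b hb => h3 b (Multiset.mem_cons_of_mem hb)), Multiset.card_cons, pow_succ,
        mul_comm]
  have hpp : (0 : ℝ) < p := by exact_mod_cast hp.out.pos
  have hp1 : (1 : ℝ) < p := by exact_mod_cast hp.out.one_lt
  have hρ0 : ρ ≠ 0 := by
    intro h
    rw [h, zero_pow hφ0.ne'] at hρφ
    exact (inv_ne_zero hpp.ne') hρφ.symm
  obtain ⟨m, hm⟩ : ∃ m : ℤ, ρ ^ g.natDegree = (p : ℝ) ^ m := by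
    rw [← hval]
    apply value_group hn hz
    · have h1 : aeval (1 : PadicAlgCl p) g = algebraMap E (PadicAlgCl p) (g.eval 1) := by
        rw [← map_one (algebraMap E (PadicAlgCl p)), aeval_algebraMap_apply, coe_aeval_eq_eval]
      rw [h1]
      exact (g.eval 1).2
    · intro h
      rw [h, norm_zero] at hval
      exact pow_ne_zero _ hρ0 hval.symm
  -- hence `φ` divides the degree
  have h1 : (p : ℝ) ^ (m * φ) = (p : ℝ) ^ (-(g.natDegree : ℤ)) := by
    rw [zpow_mul, ← hm, zpow_natCast, ← pow_mul, mul_comm, pow_mul, hρφ, zpow_neg, zpow_natCast,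
      inv_pow]
  have h2 : m * φ = -(g.natDegree : ℤ) := zpow_right_injective₀ hpp hp1.ne' h1
  have hgpos : 0 < g.natDegree := minpoly.natDegree_pos haE
  have h3 : φ ≤ g.natDegree := by
    have h4 : (φ : ℤ) ∣ (g.natDegree : ℤ) := ⟨-m, by linarith⟩
    exact Nat.le_of_dvd hgpos (by exact_mod_cast h4)
  have h4 : g = cyclotomic (p ^ (k + 1)) E := by
    symm
    apply eq_of_monic_of_dvd_of_natDegree_le hgm (cyclotomic.monic _ _) hdvd
    rw [natDegree_cyclotomic]
    exact h3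
  rw [h4]
  exact hroot b hb

lemma pow_eq_of_modEq {M : Type} [Monoid M] {z : M} {n a b : ℕ} (hz : z ^ n = 1)
    (h : a ≡ b [MOD n]) : z ^ a = z ^ b := by
  have h1 : ∀ c : ℕ, z ^ c = z ^ (c % n) := by
    intro c
    conv_lhs => rw [← Nat.mod_add_div c n, pow_add, pow_mul, hz, one_pow, mul_one]
  rw [h1 a, h1 b, h]

/-- automorphisms with given values at a root of unity -/
theorem exists_gal {n k a j : ℕ} (hn : ¬ p ∣ n) {ζ : PadicAlgCl p}
    (hζ : IsPrimitiveRoot ζ (n * p ^ k)) (ha : a.Coprime (n * p ^ k)) (haj : a ≡ p ^ j [MOD n]) :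
    ∃ σ : PadicAlgCl p ≃ₐ[ℚ_[p]] PadicAlgCl p, σ ζ = ζ ^ a := by
  have hn0 : n ≠ 0 := by rintro rfl; exact hn (dvd_zero _)
  have hk0 : p ^ k ≠ 0 := (pow_pos hp.out.pos _).ne'
  have hz : IsPrimitiveRoot (ζ ^ p ^ k) n :=
    hζ.pow (Nat.pos_of_ne_zero (mul_ne_zero hn0 hk0)) (mul_comm _ _)
  have hw : IsPrimitiveRoot (ζ ^ n) (p ^ k) :=
    hζ.pow (Nat.pos_of_ne_zero (mul_ne_zero hn0 hk0)) rfl
  set z := ζ ^ p ^ k with hzdef
  set w := ζ ^ n with hwdef
  obtain ⟨σ, hσ⟩ := exists_frob hn hz.pow_eq_one j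
  have hza : z ^ p ^ j = z ^ a := by
    exact (pow_eq_of_modEq hz.pow_eq_one haj).symm
  rw [hza] at hσ
  have hw1 : IsPrimitiveRoot (σ w) (p ^ k) := hw.map_of_injective σ.injective
  have hwa : IsPrimitiveRoot (w ^ a) (p ^ k) :=
    hw.pow_of_coprime a (Nat.Coprime.coprime_mul_left_right ha)
  obtain ⟨ρ, hρ⟩ := (conj_wild hn hz.pow_eq_one hwa hw1).exists_algEquiv
  let ρ' : PadicAlgCl p ≃ₐ[ℚ_[p]] PadicAlgCl p := ρ.restrictScalars ℚ_[p]
  have hρz : ρ' z = z := by
    have h1 : z ∈ IntermediateField.adjoin ℚ_[p] {z} :=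
      IntermediateField.mem_adjoin_simple_self _ _
    exact ρ.commutes ⟨z, h1⟩
  have hρw : ρ' (σ w) = w ^ a := hρ
  refine ⟨ρ' * σ, ?_⟩
  have h1 : (ρ' * σ) z = z ^ a := by
    rw [AlgEquiv.mul_apply, hσ, map_pow, hρz]
  have h2 : (ρ' * σ) w = w ^ a := by
    rw [AlgEquiv.mul_apply, hρw]
  have hcop : Nat.Coprime (p ^ k) n := by
    apply Nat.Coprime.pow_left
    exact (Nat.Prime.coprime_iff_not_dvd hp.out).2 hn
  have hbez := Nat.gcd_eq_gcd_ab (p ^ k) n
  rw [hcop.gcd_eq_one] at hbez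
  have hζ0 : ζ ≠ 0 := hζ.ne_zero (mul_ne_zero hn0 hk0)
  have hζeq : ζ = z ^ (Nat.gcdA (p ^ k) n) * w ^ (Nat.gcdB (p ^ k) n) := by
    rw [hzdef, hwdef, ← zpow_natCast, ← zpow_natCast, ← zpow_mul, ← zpow_mul,
      ← zpow_add₀ hζ0, ← hbez]
    simp
  calc (ρ' * σ) ζ = (ρ' * σ) (z ^ (Nat.gcdA (p ^ k) n) * w ^ (Nat.gcdB (p ^ k) n)) := by
        rw [← hζeq]
    _ = (z ^ (Nat.gcdA (p ^ k) n) * w ^ (Nat.gcdB (p ^ k) n)) ^ a := by
        rw [map_mul, map_zpow₀, map_zpow₀, h1, h2, mul_pow, ← zpow_natCast, ← zpow_natCast,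
          ← zpow_natCast, ← zpow_natCast, ← zpow_mul, ← zpow_mul, ← zpow_mul, ← zpow_mul,
          mul_comm (a : ℤ), mul_comm (a : ℤ)]
    _ = ζ ^ a := by rw [← hζeq]

end Pool.Agent.H512.IT
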